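import Pool.Agent.MP_478eab_an.R.Spec

/-! Row DIM: the dimension of the singular set. -/

namespace Pool.Agent.MP_478eab_an.R

open MeasureTheory Set Filter Topology Metric Pool.Agent.MP_478eab_an.V Pool.Agent.MP_478eab_an.P

variable {n : ℕ}

/-- closed cell of the grid of side `1 / (N + 1)` -/
def dmC (N : ℕ) (k : Fin n → Fin (N + 1)) : Set (Fin n → ℝ) :=
  Set.pi univ fun i => Icc (((k i : ℕ) : ℝ) / (N + 1)) ((((k i : ℕ) : ℝ) + 1) / (N + 1))

/-- half-open cell -/
def dmH (N : ℕ) (k : Fin n → Fin (N + 1)) : Set (Fin n → ℝ) :=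
  Set.pi univ fun i => Ico (((k i : ℕ) : ℝ) / (N + 1)) ((((k i : ℕ) : ℝ) + 1) / (N + 1))

theorem dm_sub (N : ℕ) (k : Fin n → Fin (N + 1)) : dmH N k ⊆ dmC N k :=
  pi_mono fun _ _ => Ico_subset_Icc_self

theorem dm_cube (N : ℕ) (k : Fin n → Fin (N + 1)) : dmC N k ⊆ cube n := by
  intro x hx
  have hN : (0 : ℝ) < N + 1 := by positivity
  refine ⟨fun i => le_trans (by positivity) (hx i (mem_univ i)).1,
    fun i => (hx i (mem_univ i)).2.trans ?_⟩
  have : ((k i : ℕ) : ℝ) + 1 ≤ N + 1 := by exact_mod_cast (k i).2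
  exact (div_le_one hN).2 this

theorem dm_dist (N : ℕ) (k : Fin n → Fin (N + 1)) {x y : Fin n → ℝ} (hx : x ∈ dmC N k)
    (hy : y ∈ dmC N k) : dist x y ≤ 1 / (N + 1) := by
  refine (dist_pi_le_iff (by positivity)).2 fun i => ?_
  have h1 := hx i (mem_univ i)
  have h2 := hy i (mem_univ i)
  rw [mem_Icc, add_div] at h1 h2
  rw [Real.dist_eq, abs_le]
  constructor <;> linarith [h1.1, h1.2, h2.1, h2.2]

theorem dm_cover (N : ℕ) {x : Fin n → ℝ} (hx : x ∈ cube n) : ∃ k, x ∈ dmC N k := by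
  have hN : (0 : ℝ) < N + 1 := by positivity
  refine ⟨fun i => ⟨min ⌊x i * (N + 1)⌋₊ N, by omega⟩, fun i _ => ?_⟩
  have h0 : 0 ≤ x i * (N + 1) := mul_nonneg (hx.1 i) hN.le
  have h1 : x i * (N + 1) ≤ N + 1 := mul_le_of_le_one_left hN.le (hx.2 i)
  have h2 := Nat.floor_le h0
  have h3 := Nat.lt_floor_add_one (x i * (N + 1))
  rw [mem_Icc, div_le_iff₀ hN, le_div_iff₀ hN]
  simp only [Nat.cast_min]
  exact ⟨(min_le_left _ _).trans h2, by
    rw [← min_add_add_right]; exact le_min h3.le h1⟩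

theorem dm_disj (N : ℕ) {k k' : Fin n → Fin (N + 1)} (h : k ≠ k') :
    Disjoint (dmH N k) (dmH N k') := by
  have hN : (0 : ℝ) < N + 1 := by positivity
  refine disjoint_left.2 fun x hx hx' => h (funext fun i => Fin.ext ?_)
  have h1 := hx i (mem_univ i)
  have h2 := hx' i (mem_univ i)
  have a : ((k i : ℕ) : ℝ) < (k' i : ℕ) + 1 :=
    (div_lt_div_iff_of_pos_right hN).1 (h1.1.trans_lt h2.2)
  have b : ((k' i : ℕ) : ℝ) < (k i : ℕ) + 1 :=
    (div_lt_div_iff_of_pos_right hN).1 (h2.1.trans_lt h1.2)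
  have a' : (k i : ℕ) < k' i + 1 := by exact_mod_cast a
  have b' : (k' i : ℕ) < k i + 1 := by exact_mod_cast b
  omega

theorem dm_vol (N : ℕ) (k : Fin n → Fin (N + 1)) :
    volume.real (dmH N k) = (1 / ((N : ℝ) + 1)) ^ n := by
  have hN : (0 : ℝ) < N + 1 := by positivity
  rw [measureReal_def, dmH, Real.volume_pi_Ico_toReal fun i => by
    show ((k i : ℕ) : ℝ) / (N + 1) ≤ (((k i : ℕ) : ℝ) + 1) / (N + 1)
    gcongr; linarith]
  simp only [← sub_div, add_sub_cancel_left]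
  simp

theorem dm_count (N : ℕ) (J : Finset (Fin n → Fin (N + 1))) {A : Set (Fin n → ℝ)}
    (h : ∀ k ∈ J, dmC N k ⊆ A) :
    J.card * (1 / ((N : ℝ) + 1)) ^ n ≤ volume.real (cube n ∩ A) := by
  have hc : volume (cube n) ≠ ⊤ := isCompact_Icc.measure_lt_top.ne
  have e := measureReal_biUnion_finset (μ := volume) (s := J) (f := dmH N)
    (fun k _ k' _ hk => dm_disj N hk)
    (fun k _ => MeasurableSet.univ_pi fun i => measurableSet_Ico)
    fun k _ => ne_top_of_le_ne_top hc (measure_mono ((dm_sub N k).trans (dm_cube N k)))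
  simp only [dm_vol, Finset.sum_const, nsmul_eq_mul] at e
  rw [← e]
  exact measureReal_mono (iUnion₂_subset fun k hk => (dm_sub N k).trans
    (subset_inter (dm_cube N k) (h k hk)))
    (ne_top_of_le_ne_top hc (measure_mono inter_subset_left))

theorem dm_mv {φ : (Fin n → ℝ) → ℝ} (hφ : ContDiff ℝ 1 φ) {x y : Fin n → ℝ} {r B : ℝ}
    (hB : 0 ≤ B) (h : ∀ z ∈ closedBall x r, ∀ i, |pd i φ z| ≤ B) (hy : dist y x ≤ r) :
    |φ y - φ x| ≤ n * B * r := by
  have hr : 0 ≤ r := dist_nonneg.trans hy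
  have k := (convex_closedBall x r).norm_image_sub_le_of_norm_fderiv_le (f := φ) (C := n * B)
    (fun z _ => hφ.differentiable one_ne_zero z) (fun z hz => by
      refine ContinuousLinearMap.opNorm_le_bound _ (by positivity) fun v => ?_
      have e : fderiv ℝ φ z v = ∑ i, v i * pd i φ z := by
        conv_lhs => rw [pi_eq_sum_univ' v]
        simp only [map_sum, map_smul, smul_eq_mul, pd]
      rw [e]
      refine (norm_sum_le _ _).trans ((Finset.sum_le_card_nsmul _ _ (‖v‖ * B) fun i _ => ?_).trans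
        (by simp only [Finset.card_univ, Fintype.card_fin, nsmul_eq_mul]; exact le_of_eq (by ring)))
      rw [norm_mul]
      exact mul_le_mul (norm_le_pi_norm v i) (h z hz i) (norm_nonneg _) (norm_nonneg _))
    (mem_closedBall_self hr) hy
  rw [← dist_eq_norm] at k
  rw [← Real.dist_eq]
  refine k.trans (mul_le_mul_of_nonneg_left ?_ (by positivity))
  rwa [← dist_eq_norm]

theorem dimS (hn : 2 ≤ n) : DimS n := by
  classical
  intro φ c C hφ hH hv
  refine dimH_le fun d hd => ?_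
  by_contra hlt
  have hd2 : (n : ℝ) - 2 < d := by
    have h1 : ((n - 2 : ℕ) : NNReal) < d := by
      rw [← ENNReal.coe_lt_coe, ENNReal.coe_natCast]; exact not_le.1 hlt
    have h2 : ((n - 2 : ℕ) : ℝ) < d := by exact_mod_cast h1
    rwa [Nat.cast_sub hn] at h2
  set α : ℝ := max (1 / 2) (n - 1 - d) with hα
  have a0 : 0 < α := lt_max_of_lt_left (by norm_num)
  have a1 : α < 1 := max_lt (by norm_num) (by linarith)
  have a2 : (n : ℝ) - 1 - d ≤ α := le_max_right _ _
  obtain ⟨B, B0, hB⟩ := hH α a0 a1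
  set S := {x | x ∈ cube n ∧ φ x = c ∧ ∀ i, pd i φ x = 0} with hS
  have r0 : ∀ N : ℕ, (0 : ℝ) < 1 / (N + 1) := fun N => by positivity
  have lr : Tendsto (fun N : ℕ => (1 : ℝ) / (N + 1)) atTop (𝓝 0) :=
    tendsto_one_div_add_atTop_nhds_zero_nat
  have lt : Tendsto (fun N : ℕ => (n * B + 1) * (1 / (N + 1) : ℝ) ^ (α + 1)) atTop (𝓝[>] 0) := by
    refine tendsto_nhdsWithin_iff.2 ⟨?_, Eventually.of_forall fun N => ?_⟩
    · simpa using (lr.rpow_const_nhds_zero (by linarith : 0 < α + 1)).const_mul (n * B + 1)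
    · have := Real.rpow_pos_of_pos (r0 N) (α + 1)
      exact mem_Ioi.2 (by positivity)
  let J : ∀ N : ℕ, Finset (Fin n → Fin (N + 1)) := fun N =>
    Finset.univ.filter fun k => (dmC N k ∩ S).Nonempty
  have di : ∀ N k, ediam (dmC (n := n) N k) ≤ ENNReal.ofReal (1 / (N + 1)) := fun N k =>
    ediam_le_of_forall_dist_le fun x hx y hy => dm_dist N k hx hy
  have key := Measure.hausdorffMeasure_le_liminf_sum (ι := fun N => J N) (d : ℝ) S
    (fun N : ℕ => ENNReal.ofReal (1 / (N + 1))) (by simpa using ENNReal.tendsto_ofReal lr)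
    (fun N k => dmC N k.1) (Eventually.of_forall fun N k => di N k.1)
    (Eventually.of_forall fun N x hx => by
      obtain ⟨k, hk⟩ := dm_cover N hx.1
      exact mem_iUnion.2 ⟨⟨k, Finset.mem_filter.2 ⟨Finset.mem_univ _, x, hk, hx⟩⟩, hk⟩)
  rw [hd] at key
  refine absurd (key.trans (liminf_le_of_frequently_le' (x := ENNReal.ofReal (|C| * (n * B + 1)))
    (Eventually.frequently ?_))) (not_le.2 ENNReal.ofReal_lt_top)
  filter_upwards [lt.eventually hv] with N hN
  set r : ℝ := 1 / (N + 1) with hr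
  have rp : 0 < r := r0 N
  have r1 : r ≤ 1 := by
    rw [hr, div_le_one (by positivity)]; linarith [Nat.cast_nonneg (α := ℝ) N]
  have pa := Real.rpow_pos_of_pos rp α
  have cnt := (dm_count N (J N) (A := {x | |φ x - c| < (n * B + 1) * r ^ (α + 1)}) fun k hk y hy => by
    obtain ⟨x, hx, hxS⟩ := (Finset.mem_filter.1 hk).2
    have := dm_mv hφ (x := x) (y := y) (r := r) (B := B * r ^ α) (by positivity) (fun z hz i => by
      have h := hB z x i
      rw [hxS.2.2 i, sub_zero, ← dist_eq_norm] at h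
      exact h.trans (mul_le_mul_of_nonneg_left
        (Real.rpow_le_rpow dist_nonneg hz a0.le) B0)) (dm_dist N k hy hx)
    rw [hxS.2.1] at this
    show |φ y - c| < _
    rw [Real.rpow_add_one rp.ne']
    nlinarith [mul_pos pa rp]).trans hN
  have fin : ((J N).card : ℝ) * r ^ (d : ℝ) ≤ |C| * (n * B + 1) := by
    have p1 : r ^ (d : ℝ) * r ^ (α + 1) ≤ r ^ n := by
      rw [← Real.rpow_add rp, ← Real.rpow_natCast]
      exact Real.rpow_le_rpow_of_exponent_ge rp r1 (by linarith)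
    have p2 := Real.rpow_pos_of_pos rp (α + 1)
    have p3 := Real.rpow_pos_of_pos rp (d : ℝ)
    have p4 : 0 ≤ |C| * (n * B + 1) := by positivity
    have p5 : ((J N).card : ℝ) * r ^ n ≤ |C| * (n * B + 1) * r ^ (α + 1) := by
      rw [mul_assoc]
      exact cnt.trans (mul_le_mul_of_nonneg_right (le_abs_self C) (by positivity))
    refine le_of_mul_le_mul_right ?_ (pow_pos rp n)
    calc _ = r ^ (d : ℝ) * ((J N).card * r ^ n) := by ring
      _ ≤ r ^ (d : ℝ) * (|C| * (n * B + 1) * r ^ (α + 1)) := mul_le_mul_of_nonneg_left p5 p3.le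
      _ = |C| * (n * B + 1) * (r ^ (d : ℝ) * r ^ (α + 1)) := by ring
      _ ≤ _ := mul_le_mul_of_nonneg_left p1 p4
  refine (Finset.sum_le_card_nsmul _ _ (ENNReal.ofReal (r ^ (d : ℝ))) fun k _ => ?_).trans ?_
  · rw [← ENNReal.ofReal_rpow_of_pos rp]
    exact ENNReal.rpow_le_rpow (di N k.1) d.2
  · rw [Finset.card_univ, Fintype.card_coe, nsmul_eq_mul, ← ENNReal.ofReal_natCast,
      ← ENNReal.ofReal_mul (Nat.cast_nonneg _)]
    exact ENNReal.ofReal_le_ofReal fin

end Pool.Agent.MP_478eab_an.R
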