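import Pool.Agent.MP_478eab_an.R.Spec

/-! The gradient of a weak solution is Hölder continuous. -/

namespace Pool.Agent.MP_478eab_an.R

open MeasureTheory Set Filter Topology Metric Pool.Agent.MP_478eab_an.V Pool.Agent.MP_478eab_an.P

variable {n : ℕ}

theorem ho_interp {d A L r α : ℝ} (hA : d ≤ A) (hL : r ≤ 1 → d ≤ L * r) (A0 : 0 ≤ A) (L0 : 0 ≤ L)
    (hr : 0 ≤ r) (h0 : 0 < α) (h1 : α < 1) : d ≤ (A + L) * r ^ α := by
  have p := Real.rpow_nonneg hr α
  rcases le_total r 1 with h | h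
  · have := Real.self_le_rpow_of_le_one hr h h1.le
    nlinarith [hL h, mul_le_mul_of_nonneg_left this L0, mul_nonneg A0 p]
  · have := Real.one_le_rpow h h0.le
    nlinarith [mul_le_mul_of_nonneg_left this A0, mul_nonneg L0 p]

/-- the kernel of a partial derivative -/
noncomputable def hoK (i : Fin n) (z : Fin n → ℝ) : ℝ := G (1 / 2) z * z i

theorem ho_cont (i : Fin n) : Continuous (hoK i : (Fin n → ℝ) → ℝ) :=
  (G_cont _).mul (continuous_apply i)

theorem ho_le (i : Fin n) (z : Fin n → ℝ) : |hoK i z| ≤ G (1 / 4) z := by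
  rw [hoK, abs_mul, abs_of_pos (G_pos _ _), ← G_split, mul_comm]
  exact mul_le_mul_of_nonneg_right (abs_le_exp z i) (G_pos _ _).le

theorem ho_int (i : Fin n) : Integrable (hoK i : (Fin n → ℝ) → ℝ) :=
  (G_int (b := 1 / 4) (by norm_num)).mono' (ho_cont i).aestronglyMeasurable
    (Eventually.of_forall (ho_le i))

theorem ho_pt (i : Fin n) (z h : Fin n → ℝ) (hh : ‖h‖ ≤ 1) :
    |hoK i (z - h) - hoK i z| ≤ (4 + 4 * n) * (Real.exp (n / 4) * G (1 / 8) z) * ‖h‖ := by
  have hd : ∀ t : ℝ, HasDerivAt (fun t : ℝ => hoK i (z - t • h))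
      (G (1 / 2) (z - t • h) * (dl (z - t • h) h * (z - t • h) i - h i)) t := fun t => by
    have h1 : HasDerivAt (fun t : ℝ => z - t • h) (-h) t := by
      simpa using ((hasDerivAt_id t).smul_const h).const_sub z
    have h2 := (G_has (z - t • h)).comp_hasDerivAt t h1
    have h3 := hasDerivAt_pi.1 h1 i
    refine (h2.mul h3).congr_deriv ?_
    simp
    ring
  have := norm_image_sub_le_of_norm_deriv_le_segment_01' (f := fun t : ℝ => hoK i (z - t • h))
    (fun t _ => (hd t).hasDerivWithinAt)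
    (C := (4 + 4 * n) * (Real.exp (n / 4) * G (1 / 8) z) * ‖h‖) fun t ht => ?_
  · simpa using this
  obtain ⟨w, hw⟩ : ∃ w, w = z - t • h := ⟨_, rfl⟩
  have a1 : G (1 / 4) w ≤ Real.exp (n / 4) * G (1 / 8) z := hw ▸ G_shift z _ (by
    rw [norm_smul, Real.norm_of_nonneg ht.1]
    exact mul_le_one₀ ht.2.le (norm_nonneg _) hh)
  have a2 : |dl w h * w i| ≤ n * (nsq w * ‖h‖) := by
    rw [dl_apply, Finset.sum_mul]
    refine (Finset.abs_sum_le_sum_abs _ _).trans ((Finset.sum_le_sum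
      (g := fun _ => nsq w * ‖h‖) fun j _ => ?_).trans_eq (by simp))
    rw [mul_right_comm, abs_mul]
    refine mul_le_mul (abs_le.2 ⟨?_, ?_⟩) (norm_le_pi_norm h j) (abs_nonneg _) (nsq_nonneg w)
    · nlinarith [sq_le_nsq w i, sq_le_nsq w j, sq_nonneg (w i + w j)]
    · nlinarith [sq_le_nsq w i, sq_le_nsq w j, sq_nonneg (w i - w j)]
  have a3 : |h i| ≤ ‖h‖ := norm_le_pi_norm h i
  have a4 := Real.add_one_le_exp (1 / 4 * nsq w)
  have a5 := nsq_nonneg w
  have a6 : |dl w h * w i - h i| ≤ (4 + 4 * n) * Real.exp (1 / 4 * nsq w) * ‖h‖ := by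
    refine (abs_sub _ _).trans ((add_le_add a2 a3).trans ?_)
    have : (n : ℝ) * nsq w + 1 ≤ (4 + 4 * n) * Real.exp (1 / 4 * nsq w) := by
      nlinarith [mul_le_mul_of_nonneg_left a4 (Nat.cast_nonneg (α := ℝ) n),
        Nat.cast_nonneg (α := ℝ) n]
    nlinarith [mul_le_mul_of_nonneg_right this (norm_nonneg h)]
  rw [← hw, Real.norm_eq_abs, abs_mul, abs_of_pos (G_pos _ _)]
  calc _ ≤ G (1 / 2) w * ((4 + 4 * n) * Real.exp (1 / 4 * nsq w) * ‖h‖) :=
        mul_le_mul_of_nonneg_left a6 (G_pos _ _).le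
    _ = (4 + 4 * n) * G (1 / 4) w * ‖h‖ := by rw [← G_split]; ring
    _ ≤ _ := by gcongr

theorem ho_mod : ∃ C : ℝ, 0 ≤ C ∧ ∀ (i : Fin n) (h : Fin n → ℝ) (α : ℝ), 0 < α → α < 1 →
    ∫ z, |hoK i (z - h) - hoK i z| ≤ C * ‖h‖ ^ α := by
  have g0 : ∀ b : ℝ, 0 ≤ ∫ z : Fin n → ℝ, G b z := fun b => integral_nonneg fun z => (G_pos _ _).le
  have g4 := G_int (n := n) (b := 1 / 4) (by norm_num)
  have g8 := G_int (n := n) (b := 1 / 8) (by norm_num)
  have := g0 (1 / 4)
  have := g0 (1 / 8)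
  refine ⟨2 * (∫ z : Fin n → ℝ, G (1 / 4) z) + (4 + 4 * n) * (Real.exp (n / 4) *
    ∫ z : Fin n → ℝ, G (1 / 8) z), by positivity, fun i h α h0 h1 => ?_⟩
  have hi := (((ho_int i).comp_sub_right h).sub (ho_int i)).abs
  refine ho_interp ?_ (fun hh => ?_) (by positivity) (by positivity) (norm_nonneg _) h0 h1
  · refine (integral_mono hi ((g4.comp_sub_right h).add g4) fun z => (abs_sub _ _).trans
      (add_le_add (ho_le i _) (ho_le i _))).trans_eq ?_
    rw [integral_add' (g4.comp_sub_right h) g4, integral_sub_right_eq_self (G (1 / 4)) h, two_mul]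
  · refine (integral_mono hi (((g8.const_mul _).const_mul _).mul_const _) fun z =>
      ho_pt i z h hh).trans_eq ?_
    rw [integral_mul_const, integral_const_mul, integral_const_mul]

theorem ho_Rs {f : (Fin n → ℝ) → ℝ} (hf : Bd f) : Hol (Rs 1 f) := by
  intro α h0 h1
  obtain ⟨C, C0, hC⟩ := ho_mod (n := n)
  obtain ⟨M, hM⟩ := hf.2
  have M0 : 0 ≤ M := (abs_nonneg _).trans (hM 0)
  have hI := integrableOn_rpow_mul_exp_neg_mul_sq one_pos (s := -α) (by linarith)
  refine ⟨M * C * ∫ s in Ioi (0 : ℝ), s ^ (-α) * Real.exp (-1 * s ^ 2), mul_nonneg (by positivity)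
    (setIntegral_nonneg measurableSet_Ioi fun s hs => mul_nonneg (Real.rpow_nonneg (le_of_lt hs) _)
      (Real.exp_pos _).le), fun x y i => ?_⟩
  have i1 : ∀ x : Fin n → ℝ, Integrable (fun p : ℝ × (Fin n → ℝ) =>
      Real.exp (-1 * p.1 ^ 2) * (f (x + p.1 • p.2) * hoK i p.2)) (nu n) := fun x =>
    ((Sg_int one_pos hf x).apply_continuousLinearMap (Pi.single i 1)).congr
      (Eventually.of_forall fun p => by
        simp only [smul_apply, dl_single, smul_eq_mul, k1, hoK]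
        ring)
  have e1 : ∀ x : Fin n → ℝ, pd i (Rs 1 f) x = ∫ s in Ioi (0 : ℝ), ∫ z,
      Real.exp (-1 * s ^ 2) * (f (x + s • z) * hoK i z) := fun x => by
    rw [pd_of_has (Rs_has one_pos hf x), Sg,
      ContinuousLinearMap.integral_apply (Sg_int one_pos hf x)]
    refine Eq.trans ?_ (integral_prod _ (i1 x))
    congr 1
    funext p
    simp only [smul_apply, dl_single, smul_eq_mul, k1, hoK]
    ring
  rw [e1, e1, ← integral_sub (i1 x).integral_prod_left (i1 y).integral_prod_left,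
    ← Real.norm_eq_abs]
  refine (norm_integral_le_of_norm_le ((hI.const_mul (M * C)).mul_const (‖x - y‖ ^ α)) ?_).trans_eq
    (by rw [integral_mul_const, integral_const_mul])
  filter_upwards [ae_restrict_mem measurableSet_Ioi] with s hs
  have hs : 0 < s := hs
  have hm : AEStronglyMeasurable (fun z : Fin n → ℝ => f (y + s • z)) volume :=
    (hf.1.comp (by fun_prop)).aestronglyMeasurable
  have j1 := ((ho_int i).comp_sub_right (s⁻¹ • (x - y))).bdd_mul hm
    (Eventually.of_forall fun z => hM _)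
  have j2 := (ho_int i).bdd_mul hm (Eventually.of_forall fun z => hM _)
  have e2 : ∫ z, f (x + s • z) * hoK i z = ∫ z, f (y + s • z) * hoK i (z - s⁻¹ • (x - y)) := by
    rw [← integral_sub_right_eq_self _ (s⁻¹ • (x - y))]
    congr 1
    funext z
    congr 2
    rw [smul_sub, smul_smul, mul_inv_cancel₀ hs.ne', one_smul]
    abel
  have e3 : |(∫ z, f (x + s • z) * hoK i z) - ∫ z, f (y + s • z) * hoK i z|
      ≤ M * (C * ‖s⁻¹ • (x - y)‖ ^ α) := by
    rw [e2, ← integral_sub j1 j2, ← Real.norm_eq_abs]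
    refine (norm_integral_le_of_norm_le (((((ho_int i).comp_sub_right (s⁻¹ • (x - y))).sub
      (ho_int i)).abs).const_mul M) (Eventually.of_forall fun z => ?_)).trans ?_
    · rw [← mul_sub, Real.norm_eq_abs, abs_mul]
      exact mul_le_mul_of_nonneg_right (hM _) (abs_nonneg _)
    · rw [integral_const_mul]
      exact mul_le_mul_of_nonneg_left (hC i _ α h0 h1) M0
  rw [integral_const_mul, integral_const_mul, ← mul_sub, Real.norm_eq_abs, abs_mul,
    abs_of_pos (Real.exp_pos _)]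
  refine (mul_le_mul_of_nonneg_left e3 (Real.exp_pos _).le).trans_eq ?_
  rw [norm_smul, Real.norm_of_nonneg (by positivity), Real.mul_rpow (by positivity) (norm_nonneg _),
    Real.inv_rpow hs.le, ← Real.rpow_neg hs.le]
  ring

theorem ho_val {u : (Fin n → ℝ) → ℝ} (hu : ContDiff ℝ 1 u) {B α : ℝ}
    (hB : ∀ x i, |u x| ≤ B ∧ |pd i u x| ≤ B) (i : Fin n) (h0 : 0 < α) (h1 : α < 1) :
    ∃ C, 0 ≤ C ∧ ∀ x y, |u x - u y| ≤ C * ‖x - y‖ ^ α := by
  obtain ⟨M, hM⟩ := fderiv_bd (f := u) fun j =>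
    ⟨(pd_continuous hu j).measurable, B, fun x => (hB x j).2⟩
  have B0 : 0 ≤ B := (abs_nonneg _).trans (hB 0 i).1
  have M0 : 0 ≤ M := (norm_nonneg _).trans (hM 0)
  refine ⟨B + B + M, by positivity, fun x y => ho_interp ((abs_sub _ _).trans
    (add_le_add (hB x i).1 (hB y i).1)) (fun _ => ?_) (by positivity) M0 (norm_nonneg _) h0 h1⟩
  exact convex_univ.norm_image_sub_le_of_norm_fderiv_le (fun z _ => cd_diff hu z)
    (fun z _ => hM z) (mem_univ y) (mem_univ x)

theorem holS (hn : 2 ≤ n) : HolS n := by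
  refine ⟨fun u g S => ?_, fun u w hu hw Hu Hw ⟨B, hB⟩ ⟨B', hB'⟩ α h0 h1 => ?_⟩
  · obtain ⟨⟨-, M, hM⟩, e⟩ := (repS foldS (weakS hn foldS monoS regS)).2 u g 1 one_pos S
    have bu := ((repS foldS (weakS hn foldS monoS regS)).2 u g 1 one_pos S).1
    have bf : Bd fun y => (c0 n)⁻¹ * (2 * 1 * u y + g y) :=
      (Bd.const _).mul (((Bd.const _).mul bu).add S.bg)
    obtain ⟨N, hN⟩ := Sg_bound one_pos bf
    refine ⟨e ▸ ho_Rs bf, max M N, fun x i => ⟨(hM x).trans (le_max_left _ _),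
      le_trans ?_ (le_max_right _ _)⟩⟩
    rw [e, pd_of_has (Rs_has one_pos bf x)]
    refine ((Sg 1 _ x).le_opNorm (Pi.single i 1)).trans ?_
    rw [Pi.norm_single, norm_one, mul_one]
    exact hN x
  · obtain ⟨C1, p1, c1⟩ := Hu α h0 h1
    obtain ⟨C2, p2, c2⟩ := Hw α h0 h1
    obtain ⟨C3, p3, c3⟩ := ho_val hu hB ⟨0, by omega⟩ h0 h1
    obtain ⟨C4, p4, c4⟩ := ho_val hw hB' ⟨0, by omega⟩ h0 h1
    have B0 : 0 ≤ B := (abs_nonneg _).trans (hB 0 ⟨0, by omega⟩).1
    have B1 : 0 ≤ B' := (abs_nonneg _).trans (hB' 0 ⟨0, by omega⟩).1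
    refine ⟨C1 * B' + B * C4 + (C3 * B' + B * C2), by positivity, fun x y i => ?_⟩
    have k : ∀ {a b c d A D P Q r : ℝ}, |a - c| ≤ P * r → |b - d| ≤ Q * r → |b| ≤ D → |c| ≤ A →
        |a * b - c * d| ≤ (P * D + A * Q) * r := fun {a b c d A D P Q r} k1 k2 k3 k4 => by
      rw [show a * b - c * d = (a - c) * b + c * (b - d) by ring]
      refine (abs_add_le _ _).trans ?_
      rw [abs_mul, abs_mul]
      have := mul_le_mul k1 k3 (abs_nonneg _) ((abs_nonneg _).trans k1)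
      have := mul_le_mul k4 k2 (abs_nonneg _) ((abs_nonneg _).trans k4)
      linarith
    rw [pd_mul (cd_diff hu x) (cd_diff hw x), pd_mul (cd_diff hu y) (cd_diff hw y),
      add_sub_add_comm, add_mul]
    exact (abs_add_le _ _).trans (add_le_add (k (c1 x y i) (c4 x y) (hB' x i).1 (hB y i).2)
      (k (c3 x y) (c2 x y i) (hB' x i).2 (hB y i).1))

end Pool.Agent.MP_478eab_an.R
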