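import Mathlib
import Pool.Agent.MP_478eab_an.P.All

/-! Regularity of the free boundary (`μ = 1`): statements of the steps. -/

namespace Pool.Agent.MP_478eab_an.R

open MeasureTheory Set Filter Topology Metric Pool.Agent.MP_478eab_an.V Pool.Agent.MP_478eab_an.P

variable {n : ℕ}

/-- the gradient is Hölder continuous of every order below one -/
def Hol (u : (Fin n → ℝ) → ℝ) : Prop :=
  ∀ α : ℝ, 0 < α → α < 1 → ∃ C : ℝ, 0 ≤ C ∧ ∀ x y i, |pd i u x - pd i u y| ≤ C * ‖x - y‖ ^ α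

/-- what maximality says about all perturbations that are small in the mean -/
def MvG (κ : ℝ) (M φ : (Fin n → ℝ) → ℝ) (η K : ℝ) : Prop :=
  ∀ h : (Fin n → ℝ) → ℝ, Measurable h → (∀ x, x ∉ cube n → h x = 0) →
    (∀ x, 0 ≤ M x + h x ∧ M x + h x ≤ κ) → ∫ x in cube n, h x = 0 →
    ∫ x in cube n, |h x| ≤ η →
      ∫ x in cube n, h x * φ x ≤ K * (∫ x in cube n, |h x|) ^ 2 ∧
      ∀ ψ : (Fin n → ℝ) → ℝ, ContDiff ℝ 1 ψ → (∀ x, 0 ≤ ψ x ∧ ψ x ≤ 1) → ∀ γ, 0 < γ →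
        |∫ x in cube n, h x * φ x * ψ x|
          ≤ (4 / γ + 2) * (|∫ x in cube n, h x * φ x| + K * (∫ x in cube n, |h x|) ^ 2)
            + γ * (K * ∫ x in cube n, (gs ψ x + ψ x ^ 2))

/-- the resource `b` on `{c - t < φ}` has mass at least `c₀ t` off every small ball -/
def Rv (b φ : (Fin n → ℝ) → ℝ) (c : ℝ) : Prop :=
  ∃ l c₀ : ℝ, 0 < l ∧ 0 < c₀ ∧ ∀ᶠ t in 𝓝[>] (0 : ℝ), ∀ x : Fin n → ℝ,
    c₀ * t ≤ ∫ y in (cube n ∩ {y | c - t < φ y}) \ closedBall x l, b y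

/-- T1: Hölder gradient of weak solutions, and of products -/
def HolS (n : ℕ) : Prop :=
  (∀ u g : (Fin n → ℝ) → ℝ, SW u g → Hol u ∧ ∃ B, ∀ x i, |u x| ≤ B ∧ |pd i u x| ≤ B) ∧
  ∀ u w : (Fin n → ℝ) → ℝ, ContDiff ℝ 1 u → ContDiff ℝ 1 w → Hol u → Hol w →
    (∃ B, ∀ x i, |u x| ≤ B ∧ |pd i u x| ≤ B) → (∃ B, ∀ x i, |w x| ≤ B ∧ |pd i w x| ≤ B) →
    Hol fun x => u x * w x

/-- T2: Kato's inequality -/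
def KatoS (n : ℕ) : Prop :=
  ∀ (τ κ : ℝ) (θ h v : (Fin n → ℝ) → ℝ), 0 < τ → Continuous θ → (∀ x, τ ≤ θ x ∧ θ x ≤ κ) →
    LB h → ContDiff ℝ 1 v → (∀ x ∈ cube n, |v x| ≤ 1 / 100) →
    (∀ ζ : (Fin n → ℝ) → ℝ, ContDiff ℝ 1 ζ →
      ∫ x in cube n, (θ x ^ 2 * dt v ζ x - θ x ^ 2 * gs v x * ζ x
        + θ x ^ 3 * (Real.exp (v x) - 1) * ζ x) = ∫ x in cube n, h x * θ x ^ 2 * ζ x) →
    τ ^ 3 * ∫ x in cube n, |v x| ≤ 4 * κ ^ 2 * ∫ x in cube n, |h x|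

/-- T3: Nash type inequality -/
def NashS (n : ℕ) : Prop :=
  ∀ ε : ℝ, 0 < ε → ∃ C : ℝ, 0 < C ∧ ∀ v : (Fin n → ℝ) → ℝ, ContDiff ℝ 1 v →
    ∫ x in cube n, v x ^ 2 ≤ ε * (∫ x in cube n, gs v x) + C * (∫ x in cube n, |v x|) ^ 2

/-- T4: the analytic half -/
def PdeG (n : ℕ) : Prop :=
  ∀ (κ : ℝ) (M θ : (Fin n → ℝ) → ℝ), 0 < κ → Rc κ M → 0 < ∫ x in cube n, M x →
    SW θ (fun x => θ x * (M x - θ x)) → (∀ x, 0 < θ x ∧ θ x ≤ κ) → Mx κ M θ →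
    ∃ (φ : (Fin n → ℝ) → ℝ) (η K f₀ : ℝ), ContDiff ℝ 1 φ ∧ Hol φ ∧ 0 < η ∧ 0 < K ∧ 0 < f₀ ∧
      (∀ x, f₀ ≤ φ x) ∧ MvG κ M φ η K

/-- T5: Poincaré inequality in `L¹` -/
def Poi1S (n : ℕ) : Prop :=
  ∃ C : ℝ, 0 < C ∧ ∀ f : (Fin n → ℝ) → ℝ, ContDiff ℝ 1 f →
    ∃ Y, ∫ x in cube n, |f x - Y| ≤ C * ∫ x in cube n, ∑ i, |pd i f x|

/-- T6: the strip above a nontrivial level is a reservoir -/
def ResS (n : ℕ) : Prop :=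
  ∀ (φ : (Fin n → ℝ) → ℝ) (c : ℝ), ContDiff ℝ 1 φ → volume (cube n ∩ {y | φ y < c}) ≠ 0 →
    volume (cube n ∩ {y | c ≤ φ y}) ≠ 0 →
    Rv ({y | φ y < c}.indicator fun _ => 1) φ c

/-- T7: logarithmic cut-off -/
def LogS (n : ℕ) : Prop :=
  ∀ ε l : ℝ, 0 < ε → 0 < l → ∃ s : ℝ, 0 < s ∧ s ≤ 1 ∧ ∀ x : Fin n → ℝ,
    ∃ ψ : (Fin n → ℝ) → ℝ, ContDiff ℝ 1 ψ ∧ (∀ y, 0 ≤ ψ y ∧ ψ y ≤ 1) ∧
      (∀ y ∈ closedBall x s, ψ y = 1) ∧ (∀ y, y ∉ closedBall x l → ψ y = 0) ∧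
      ∫ y in cube n, (gs ψ y + ψ y ^ 2) ≤ ε

/-- T8: global level -/
def LevS (n : ℕ) : Prop :=
  ∀ (κ η K : ℝ) (M φ : (Fin n → ℝ) → ℝ), Measurable M → (∀ x, 0 ≤ M x ∧ M x ≤ κ) →
    Continuous φ → 0 < η → 0 < K → MvG κ M φ η K →
    ∃ c, (∀ᵐ x ∂volume.restrict (cube n), φ x < c → M x = 0) ∧
      ∀ᵐ x ∂volume.restrict (cube n), c < φ x → M x = κ

/-- T9: a reservoir on one side bounds the strip on the other side -/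
def OneS (n : ℕ) : Prop :=
  ∀ (κ η K f₀ c : ℝ) (M φ : (Fin n → ℝ) → ℝ), Measurable M → (∀ x, 0 ≤ M x ∧ M x ≤ κ) →
    Continuous φ → 0 < η → 0 < K → 0 < f₀ → ((∀ x, f₀ ≤ φ x) ∨ ∀ x, φ x ≤ -f₀) →
    MvG κ M φ η K → Rv (fun x => κ - M x) φ c →
    ∃ C : ℝ, ∀ᶠ t in 𝓝[>] (0 : ℝ), ∫ x in cube n ∩ {x | φ x < c + t}, M x ≤ C * t

/-- T10: existence of the reservoir -/
def Res2S (n : ℕ) : Prop :=
  ∀ (κ c : ℝ) (M φ : (Fin n → ℝ) → ℝ), Measurable M → (∀ x, 0 ≤ M x ∧ M x ≤ κ) →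
    ContDiff ℝ 1 φ → 0 < ∫ x in cube n, M x → ∫ x in cube n, M x < κ →
    (∀ᵐ x ∂volume.restrict (cube n), φ x < c → M x = 0) →
    (∀ᵐ x ∂volume.restrict (cube n), c < φ x → M x = κ) → Rv (fun x => κ - M x) φ c

/-- T11: dimension of the singular set -/
def DimS (n : ℕ) : Prop :=
  ∀ (φ : (Fin n → ℝ) → ℝ) (c C : ℝ), ContDiff ℝ 1 φ → Hol φ →
    (∀ᶠ t in 𝓝[>] (0 : ℝ), volume.real (cube n ∩ {x | |φ x - c| < t}) ≤ C * t) →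
    dimH {x | x ∈ cube n ∧ φ x = c ∧ ∀ i, pd i φ x = 0} ≤ ((n - 2 : ℕ) : ENNReal)

/-- T12: the theorem for `μ = 1` -/
def RegMain (n : ℕ) : Prop :=
  ∀ (κ : ℝ) (M θ : (Fin n → ℝ) → ℝ), 0 < κ → Rc κ M → 0 < ∫ x in cube n, M x →
    ∫ x in cube n, M x < κ → WS θ (fun x => θ x * (M x - θ x)) → (∀ x ∈ cube n, 0 < θ x) →
    Mx κ M θ → ∃ φ : (Fin n → ℝ) → ℝ, ContDiff ℝ 1 φ ∧ Hol φ ∧
      (∀ᵐ x ∂volume.restrict (cube n), M x = {y | 0 < φ y}.indicator (fun _ => κ) x) ∧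
      dimH {x | x ∈ cube n ∧ φ x = 0 ∧ ∀ i, pd i φ x = 0} ≤ ((n - 2 : ℕ) : ENNReal)

end Pool.Agent.MP_478eab_an.R
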