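import Mathlib
import Pool.Agent.MP_478eab_an.R.Spec

/-! Kato's inequality and a Nash type inequality on the cube. -/

namespace Pool.Agent.MP_478eab_an.R

open MeasureTheory Set Filter Topology Metric Pool.Agent.MP_478eab_an.V Pool.Agent.MP_478eab_an.P

variable {n : ℕ}

/-- a smooth sign function -/
theorem ka_sign {e : ℝ} (he : 0 < e) : ∃ S : ℝ → ℝ, ContDiff ℝ 1 S ∧ Monotone S ∧ S 0 = 0 ∧
    (∀ t, |S t| ≤ 1) ∧ ∀ t, |t| - e ≤ t * S t := by
  refine ⟨fun t => Real.smoothTransition (t / e) - Real.smoothTransition (-t / e), ?_, ?_, by simp,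
    fun t => ?_, fun t => ?_⟩
  · exact (Real.smoothTransition.contDiff.comp (contDiff_id.div_const e)).sub
      (Real.smoothTransition.contDiff.comp (contDiff_id.neg.div_const e))
  · intro s t h
    exact sub_le_sub (Real.smoothTransition.monotone (div_le_div_of_nonneg_right h he.le))
      (Real.smoothTransition.monotone (div_le_div_of_nonneg_right (neg_le_neg h) he.le))
  · have h1 := Real.smoothTransition.nonneg (t / e)
    have h2 := Real.smoothTransition.nonneg (-t / e)
    have h3 := Real.smoothTransition.le_one (t / e)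
    have h4 := Real.smoothTransition.le_one (-t / e)
    rw [abs_le]; constructor <;> linarith
  · have key : ∀ s : ℝ, 0 ≤ s → s - e ≤ s * Real.smoothTransition (s / e) := fun s hs => by
      rcases le_total s e with h | h
      · nlinarith [mul_nonneg hs (Real.smoothTransition.nonneg (s / e))]
      · rw [Real.smoothTransition.one_of_one_le ((one_le_div he).2 h)]; linarith
    rcases le_total 0 t with h | h
    · have z := Real.smoothTransition.zero_of_nonpos
        (div_nonpos_of_nonpos_of_nonneg (neg_nonpos.2 h) he.le)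
      have := key t h
      simp only [z, sub_zero, abs_of_nonneg h]
      exact this
    · have z := Real.smoothTransition.zero_of_nonpos (div_nonpos_of_nonpos_of_nonneg h he.le)
      have := key (-t) (neg_nonneg.2 h)
      simp only [z, abs_of_nonpos h]
      linarith

theorem ka_exp {v s : ℝ} (hv : |v| ≤ 1 / 100) (h1 : 0 ≤ v → 0 ≤ s) (h2 : v ≤ 0 → s ≤ 0) :
    v * s / 2 ≤ (Real.exp v - 1) * (Real.exp v * s) := by
  obtain ⟨ha, hb⟩ := abs_le.1 hv
  have e1 := Real.add_one_le_exp v
  rcases le_total 0 v with h | h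
  · have : v / 2 ≤ (Real.exp v - 1) * Real.exp v := by nlinarith
    nlinarith [mul_le_mul_of_nonneg_right this (h1 h)]
  · have e2 := Real.add_one_le_exp (-v)
    have e3 : Real.exp v * Real.exp (-v) = 1 := by rw [← Real.exp_add]; simp
    have e0 := Real.exp_pos v
    have e4 : Real.exp v - 1 ≤ v * Real.exp v := by nlinarith
    have e5 : 1 / 2 ≤ Real.exp v * Real.exp v := by nlinarith
    have : (Real.exp v - 1) * Real.exp v ≤ v / 2 := by
      nlinarith [mul_le_mul_of_nonneg_right e4 e0.le, mul_le_mul_of_nonneg_left e5 (neg_nonneg.2 h)]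
    nlinarith [mul_le_mul_of_nonneg_right this (neg_nonneg.2 (h2 h))]

theorem katoS : KatoS n := by
  intro τ κ θ h v hτ tc tb hl hv vb veq
  have main : ∀ e : ℝ, 0 < e →
      τ ^ 3 * ∫ x in cube n, |v x| ≤ 4 * κ ^ 2 * (∫ x in cube n, |h x|) + τ ^ 3 * e := by
    intro e he
    obtain ⟨S, Sc, Sm, S0, S1, Se⟩ := ka_sign he
    have vc := hv.continuous
    have sc := Sc.continuous
    have zc : ContDiff ℝ 1 fun x => Real.exp (v x) * S (v x) := hv.exp.mul (Sc.comp hv)
    have E := veq _ zc
    have gc := gs_continuous hv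
    have dc := dt_cont hv zc
    have hd : ∀ x, dt v (fun x => Real.exp (v x) * S (v x)) x
        = (Real.exp (v x) * S (v x) + Real.exp (v x) * deriv S (v x)) * gs v x := fun x => by
      have d := (Real.hasDerivAt_exp (v x)).fun_mul
        ((Sc.differentiable one_ne_zero) (v x)).hasDerivAt
      unfold dt gs
      rw [Finset.mul_sum]
      refine Finset.sum_congr rfl fun i _ => ?_
      rw [pd_comp (g := fun t => Real.exp t * S t) d (cd_diff hv x)]
      ring
    have habs : LB fun x => |h x| := ⟨continuous_abs.measurable.comp hl.1, fun K hK => by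
      simpa only [abs_abs] using hl.2 K hK⟩
    have i1 : Continuous fun x => θ x ^ 2 * dt v (fun x => Real.exp (v x) * S (v x)) x
        - θ x ^ 2 * gs v x * (Real.exp (v x) * S (v x))
        + θ x ^ 3 * (Real.exp (v x) - 1) * (Real.exp (v x) * S (v x)) :=
      (((tc.pow 2).mul dc).sub (((tc.pow 2).mul gc).mul zc.continuous)).add (by fun_prop)
    have A := lin2 cube_meas (f := fun x => τ ^ 3 * |v x|) (LB.of_cont (by fun_prop)).cube
      (LB.of_cont i1).cube (LB.const (n := n) 1).cube (a := 2) (b := τ ^ 3 * e) fun x hx => by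
        have k1 := ka_exp (vb x hx) (fun h => S0 ▸ Sm h) (fun h => S0 ▸ Sm h)
        have k2 := Se (v x)
        have k3 : 0 ≤ v x * S (v x) := by
          rcases le_total 0 (v x) with h | h
          · exact mul_nonneg h (S0 ▸ Sm h)
          · exact mul_nonneg_of_nonpos_of_nonpos h (S0 ▸ Sm h)
        have k4 : τ ^ 3 ≤ θ x ^ 3 := pow_le_pow_left₀ hτ.le (tb x).1 3
        have k5 : 0 ≤ θ x ^ 2 * (Real.exp (v x) * deriv S (v x) * gs v x) :=
          mul_nonneg (sq_nonneg _) (mul_nonneg (mul_nonneg (Real.exp_pos _).le Sm.deriv_nonneg)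
            (gs_nonneg v x))
        have t3 : 0 < τ ^ 3 := by positivity
        have k6 := mul_le_mul k4 k1 (by positivity) (t3.le.trans k4)
        have k7 := mul_le_mul_of_nonneg_left k2 t3.le
        rw [hd]
        nlinarith
    have B := lin1 cube_meas (f := fun x => h x * θ x ^ 2 * (Real.exp (v x) * S (v x)))
      ((hl.mul (LB.of_cont (tc.pow 2))).mul (LB.of_cont zc.continuous)).cube habs.cube
      (a := 2 * κ ^ 2) fun x hx => by
        have k1 : Real.exp (v x) ≤ 2 := by
          have := Real.abs_exp_sub_one_le (x := v x) ((vb x hx).trans (by norm_num))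
          linarith [(abs_le.1 this).2, vb x hx]
        have k2 : θ x ^ 2 ≤ κ ^ 2 := pow_le_pow_left₀ (hτ.le.trans (tb x).1) (tb x).2 2
        refine (le_abs_self _).trans ?_
        rw [abs_mul, abs_mul, abs_mul, abs_of_nonneg (sq_nonneg (θ x)), Real.abs_exp]
        have k3 : Real.exp (v x) * |S (v x)| ≤ 2 * 1 :=
          mul_le_mul k1 (S1 _) (abs_nonneg _) (by norm_num)
        have k4 := mul_le_mul (mul_le_mul_of_nonneg_left k2 (abs_nonneg (h x))) k3
          (by positivity) (by positivity)
        linarith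
    rw [integral_const_mul, int_cube_const, E] at A
    linarith
  refine le_of_forall_pos_le_add fun d hd => ?_
  have t3 : 0 < τ ^ 3 := by positivity
  have := main (d / τ ^ 3) (div_pos hd t3)
  rwa [mul_div_cancel₀ _ t3.ne'] at this

theorem ka_vol {y : Fin n → ℝ} (hy : y ∈ cube n) {l : ℝ} (h0 : 0 < l) (h1 : l ≤ 1) :
    l ^ n ≤ volume.real (Q y l) ∧ volume.real (Q y l) ≤ (2 * l) ^ n := by
  have fin : volume (Q y l) ≠ ⊤ := (cube_compact.inter_left isClosed_closedBall).measure_lt_top.ne
  constructor
  · have sub : Icc (fun i => min (y i) (1 - l)) (fun i => min (y i) (1 - l) + l) ⊆ Q y l := by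
      intro z hz
      have a := fun i => hz.1 i
      have b := fun i => hz.2 i
      have c := fun i => hy.1 i
      have d := fun i => hy.2 i
      simp only [Pi.zero_apply, Pi.one_apply] at a b c d
      refine ⟨?_, fun i => ?_, fun i => ?_⟩
      · rw [mem_closedBall, dist_pi_le_iff h0.le]
        intro i
        rw [Real.dist_eq, abs_le]
        have := le_min (show y i - l ≤ y i by linarith) (show y i - l ≤ 1 - l by linarith [d i])
        constructor <;> linarith [a i, b i, min_le_left (y i) (1 - l)]
      · exact (le_min (c i) (by linarith)).trans (a i)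
      · have := min_le_right (y i) (1 - l)
        show z i ≤ 1
        linarith [b i]
    refine le_trans (le_of_eq ?_) (measureReal_mono sub fin)
    rw [Measure.real, Real.volume_Icc_pi_toReal fun i => by simp [h0.le]]
    simp
  · refine (measureReal_mono inter_subset_left
      (isCompact_closedBall y l).measure_lt_top.ne).trans_eq ?_
    rw [Measure.real, Real.volume_pi_closedBall y h0.le, ENNReal.toReal_ofReal (by positivity)]
    simp

theorem ka_fub {f : (Fin n → ℝ) → ℝ} (hf : Continuous f) (l : ℝ) :
    IntegrableOn (fun x => ∫ y in Q x l, f y) (cube n) ∧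
    IntegrableOn (fun y => volume.real (Q y l) * f y) (cube n) ∧
    ∫ x in cube n, ∫ y in Q x l, f y = ∫ y in cube n, volume.real (Q y l) * f y := by
  have : IsFiniteMeasure (volume.restrict (cube n)) :=
    isFiniteMeasure_restrict.2 cube_compact.measure_lt_top.ne
  have hS : MeasurableSet {p : (Fin n → ℝ) × (Fin n → ℝ) | dist p.2 p.1 ≤ l} :=
    (isClosed_le (by fun_prop) continuous_const).measurableSet
  have I : Integrable (Function.uncurry fun x y : Fin n → ℝ => ib x l y * f y)
      ((volume.restrict (cube n)).prod (volume.restrict (cube n))) := by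
    have := ((LB.of_cont hf).cube.comp_snd (volume.restrict (cube n))).indicator hS
    refine this.congr (Eventually.of_forall fun p => ?_)
    by_cases h : dist p.2 p.1 ≤ l
    · simp [Function.uncurry, indicator, ib, h]
    · simp [Function.uncurry, indicator, ib, h]
  have e : ∀ y, ∫ x in cube n, ib x l y * f y = volume.real (Q y l) * f y := fun y => by
    have : ∀ x, ib x l y * f y = ib y l x * f y := fun x => by
      simp only [ib, indicator, mem_closedBall, dist_comm]
    simp only [this]
    rw [ib_int y l fun _ => f y, setIntegral_const, smul_eq_mul]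
  have s := integral_integral_swap I
  have a := I.integral_prod_left
  have b := I.integral_prod_right
  simp only [Function.uncurry, ib_int, e] at s a b
  exact ⟨a, b, s⟩

theorem nashS : NashS n := by
  intro ε hε
  obtain ⟨C, hC, P⟩ := poiS (n := n)
  obtain ⟨l, l0, l1, hl⟩ : ∃ l : ℝ, 0 < l ∧ l ≤ 1 ∧ C * l ^ 2 * 2 ^ n ≤ ε := by
    refine ⟨min 1 (ε / (C * 2 ^ n)), by positivity, min_le_left _ _, ?_⟩
    have a : 0 < min 1 (ε / (C * 2 ^ n)) := by positivity
    have b := min_le_left 1 (ε / (C * 2 ^ n))
    have c := (le_div_iff₀ (by positivity)).1 (min_le_right 1 (ε / (C * 2 ^ n)))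
    have d : 0 < C * 2 ^ n := by positivity
    nlinarith [mul_le_mul_of_nonneg_left b (mul_pos a d).le]
  have L0 : 0 < l ^ n := by positivity
  refine ⟨1 / (l ^ n) ^ 2, by positivity, fun v hv => ?_⟩
  have vc := hv.continuous
  have gc := gs_continuous hv
  obtain ⟨δ, hδ⟩ := (LB.of_cont vc).2 _ cube_compact
  obtain ⟨N, hN⟩ : ∃ N, N = ∫ x in cube n, |v x| := ⟨_, rfl⟩
  rw [← hN]
  obtain ⟨a1, a2, a3⟩ := ka_fub (f := fun y => v y ^ 2) (by fun_prop) l
  obtain ⟨b1, b2, b3⟩ := ka_fub gc l
  have A := lin2 cube_meas a1 b1 (LB.const (n := n) 1).cube (a := C * l ^ 2)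
    (b := N ^ 2 / l ^ n) fun x hx => by
      obtain ⟨Y, -, hY⟩ := P x hx l δ v l0 hv hδ
      have k := lin3 (Q_meas x l) (Q_int (f := fun y => v y ^ 2) (by fun_prop) x l)
        (Q_int (f := fun y => (v y - Y) ^ 2) (by fun_prop) x l) (Q_int vc.abs x l)
        (Q_int (f := fun _ => 1) continuous_const x l) (a := 1) (b := 2 * |Y|) (c := -Y ^ 2)
        fun y _ => by
          have := le_abs_self (Y * v y)
          rw [abs_mul] at this
          nlinarith
      have m : ∫ y in Q x l, |v y| ≤ N := hN ▸ setIntegral_mono_set (LB.of_cont vc.abs).cube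
        (Eventually.of_forall fun y => abs_nonneg _) (LE.le.eventuallyLE inter_subset_right)
      rw [setIntegral_const, smul_eq_mul, mul_one] at k
      have q := mul_le_mul_of_nonneg_left (ka_vol hx l0 l1).1 (sq_nonneg Y)
      have r : 2 * |Y| * N ≤ Y ^ 2 * l ^ n + N ^ 2 / l ^ n := by
        have : 0 ≤ (|Y| * l ^ n - N) ^ 2 / l ^ n := by positivity
        have e : (|Y| * l ^ n - N) ^ 2 / l ^ n
            = |Y| ^ 2 * l ^ n + N ^ 2 / l ^ n - 2 * |Y| * N := by field_simp; ring
        rw [e, sq_abs] at this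
        linarith
      have t := mul_le_mul_of_nonneg_left m (by positivity : 0 ≤ 2 * |Y|)
      linarith
  rw [a3, b3, int_cube_const] at A
  have B := lin1 cube_meas (f := fun y => l ^ n * v y ^ 2) (LB.of_cont (by fun_prop)).cube a2
    (a := 1) fun y hy => by
      rw [one_mul]; exact mul_le_mul_of_nonneg_right (ka_vol hy l0 l1).1 (sq_nonneg _)
  have D := lin1 cube_meas b2 (LB.of_cont gc).cube (a := (2 * l) ^ n) fun y hy =>
    mul_le_mul_of_nonneg_right (ka_vol hy l0 l1).2 (gs_nonneg v y)
  rw [integral_const_mul] at B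
  have g0 : 0 ≤ ∫ y in cube n, gs v y := integral_nonneg (gs_nonneg v)
  refine le_of_mul_le_mul_left ?_ L0
  have e : l ^ n * (ε * (∫ y in cube n, gs v y) + 1 / (l ^ n) ^ 2 * N ^ 2)
      = ε * (l ^ n * ∫ y in cube n, gs v y) + N ^ 2 / l ^ n := by field_simp
  have D' := mul_le_mul_of_nonneg_left D (by positivity : 0 ≤ C * l ^ 2)
  have F := mul_le_mul_of_nonneg_right hl (mul_nonneg L0.le g0)
  rw [mul_pow] at D'
  rw [e]
  nlinarith

end Pool.Agent.MP_478eab_an.R
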