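import Pool.Agent.MP_478eab_an.R.Spec

/-! Regularity of the free boundary, row LEV: the global level and the reservoir. -/

namespace Pool.Agent.MP_478eab_an.R

open MeasureTheory Set Filter Topology Metric Pool.Agent.MP_478eab_an.V Pool.Agent.MP_478eab_an.P

variable {n : ℕ}

theorem lv_mv {κ η K m u v : ℝ} {M φ a b : (Fin n → ℝ) → ℝ} (D : st_Dip κ m u v M φ (cube n) a b)
    (hM : ∀ x, 0 ≤ M x ∧ M x ≤ κ) (hv : MvG κ M φ η K) (K0 : 0 < K) (hη : 2 * m ≤ η) :
    ∫ x in cube n, (b x - a x) * φ x ≤ K * (2 * m) ^ 2 := by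
  obtain ⟨la, lb⟩ := D.lb hM
  have h1 : ∫ x in cube n, |b x - a x| ≤ 2 * m := by
    have := lin2 cube_meas (lb.cube.sub la.cube).abs la.cube lb.cube (a := 1) (b := 1) fun x _ => by
      have h1 := (D.ba x).1
      have h2 := (D.bb x).1
      exact abs_le.2 ⟨by simp only [Pi.sub_apply]; linarith, by simp only [Pi.sub_apply]; linarith⟩
    rw [D.ia, D.ib] at this
    simp only [Pi.sub_apply] at this
    linarith
  have h2 : 0 ≤ ∫ x in cube n, |b x - a x| := integral_nonneg fun x => abs_nonneg _
  refine (hv (fun x => b x - a x) (D.mb.sub D.ma) (fun x hx => ?_) (fun x => ?_) ?_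
    (h1.trans hη)).1.trans (mul_le_mul_of_nonneg_left (pow_le_pow_left₀ h2 h1 2) K0.le)
  · rw [of_not_not fun h => hx (D.sa x h).1, of_not_not fun h => hx (D.sb x h).1, sub_self]
  · have h1 := D.ba x
    have h2 := D.bb x
    exact ⟨by linarith, by linarith⟩
  · rw [integral_sub lb.cube la.cube, D.ia, D.ib, sub_self]

theorem levS : LevS n := by
  intro κ η K M φ mM hM hφ η0 K0 hv
  obtain ⟨B, hB⟩ := (cube_compact (n := n)).exists_bound_of_continuousOn hφ.continuousOn
  have hf : ∀ x ∈ cube n, -B ≤ φ x ∧ φ x ≤ B := fun x hx => abs_le.1 (hB x hx)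
  have hQ : MeasurableSet (cube n) := cube_meas
  have hm := ae_restrict_mem (μ := volume) hQ
  have hM' : ∀ x, 0 ≤ κ - M x ∧ κ - M x ≤ κ := fun x =>
    ⟨sub_nonneg.2 (hM x).2, sub_le_self _ (hM x).1⟩
  have B0 : -B ≤ B := by
    have := hf 0 ⟨le_rfl, zero_le_one⟩
    linarith
  obtain ⟨S, hS⟩ : ∃ S : Set ℝ, S = {s | s ≤ B ∧
    ∀ᵐ x ∂volume.restrict (cube n), φ x < s → M x = 0} := ⟨_, rfl⟩
  have hne : S.Nonempty := ⟨-B, hS ▸ ⟨B0,
    hm.mono fun x hx h => absurd h (not_lt.2 (hf x hx).1)⟩⟩
  have hb : BddAbove S := ⟨B, fun s hs => by rw [hS] at hs; exact hs.1⟩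
  refine ⟨sSup S, ?_, ?_⟩
  · have h1 : ∀ k : ℕ, ∀ᵐ x ∂volume.restrict (cube n),
        φ x < sSup S - 1 / ((k : ℝ) + 1) → M x = 0 := fun k => by
      obtain ⟨s, hs, h2⟩ := exists_lt_of_lt_csSup hne
        (sub_lt_self (sSup S) (Nat.one_div_pos_of_nat (n := k)))
      rw [hS] at hs
      exact hs.2.mono fun x hx h => hx (h.trans h2)
    refine (ae_all_iff.2 h1).mono fun x hx h => ?_
    obtain ⟨k, hk⟩ := exists_nat_one_div_lt (sub_pos.2 h)
    exact hx k (by linarith)
  · have h1 : ∀ δ : ℝ, 0 < δ → ∀ᵐ x ∂volume.restrict (cube n),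
        sSup S + 2 * δ < φ x → M x = κ := fun δ hδ => by
      by_cases h2 : sSup S + δ ≤ B
      swap
      · exact hm.mono fun x hx h => absurd (hf x hx).2 (by linarith [not_le.1 h2])
      have m1 : MeasurableSet {x | φ x < sSup S + δ} :=
        (isOpen_lt hφ continuous_const).measurableSet
      have m2 : MeasurableSet {x | sSup S + 2 * δ < φ x} :=
        (isOpen_lt continuous_const hφ).measurableSet
      have h3 : 0 < ∫ x in cube n, (cube n ∩ {x | φ x < sSup S + δ}).indicator M x := by
        by_contra h3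
        have h4 : sSup S + δ ∈ S := by
          have := st_zero mM hM hQ m1 subset_rfl (not_lt.1 h3)
          exact hS.ge ⟨h2, this⟩
        linarith [le_csSup hb h4]
      refine (st_zero (a := fun x => κ - M x) (measurable_const.sub mM) hM' hQ m2
        subset_rfl (not_lt.1 fun h4 => ?_)).mono fun x hx h => (sub_eq_zero.1 (hx h)).symm
      have h5 := lt_min (lt_min h3 h4) (lt_min (half_pos η0) (show 0 < δ / (8 * K) by positivity))
      obtain ⟨a, b, D, -⟩ := st_mk (T := cube n) (φ := φ) (u := sSup S + δ) (v := sSup S + 2 * δ)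
        (mM.indicator (hQ.inter m1)) ((measurable_const.sub mM).indicator (hQ.inter m2))
        (st_ind _ fun x => (hM x).1) (st_ind _ fun x => (hM' x).1)
        (fun x hx => ⟨(mem_of_indicator_ne_zero hx).1, le_of_lt (mem_of_indicator_ne_zero hx).2⟩)
        (fun x hx => ⟨(mem_of_indicator_ne_zero hx).1, le_of_lt (mem_of_indicator_ne_zero hx).2⟩)
        h5 ((min_le_left _ _).trans (min_le_left _ _)) ((min_le_left _ _).trans (min_le_right _ _))
      have h6 := (D.low hM hφ).trans (lv_mv D hM hv K0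
        ((le_div_iff₀' two_pos).1 ((min_le_right _ _).trans (min_le_left _ _))))
      have h7 := (le_div_iff₀ (show 0 < 8 * K by positivity)).1
        ((min_le_right (min (∫ x in cube n, (cube n ∩ {x | φ x < sSup S + δ}).indicator M x)
          (∫ x in cube n, (cube n ∩ {x | sSup S + 2 * δ < φ x}).indicator (fun x => κ - M x) x))
          _).trans (min_le_right (η / 2) (δ / (8 * K))))
      generalize min (min _ _) (min (η / 2) (δ / (8 * K))) = m at h5 h6 h7
      nlinarith [mul_le_mul_of_nonneg_left h7 h5.le, mul_pos hδ h5]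
    refine (ae_all_iff.2 fun k : ℕ => h1 _ (Nat.one_div_pos_of_nat (n := k))).mono fun x hx h => ?_
    obtain ⟨k, hk⟩ := exists_nat_one_div_lt (half_pos (sub_pos.2 h))
    exact hx k (by linarith)

theorem lv_vol : volume.real (cube n) = 1 := by
  simp [cube, Measure.real, Real.volume_Icc_pi]

theorem res2S (hn : 2 ≤ n) (R : ResS n) : Res2S n := by
  intro κ c M φ mM hM hφ I0 I1 a0 a1
  have κ0 : 0 < κ := I0.trans I1
  have hc := hφ.continuous
  have hM' : ∀ x, 0 ≤ κ - M x ∧ κ - M x ≤ κ := fun x =>
    ⟨sub_nonneg.2 (hM x).2, sub_le_self _ (hM x).1⟩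
  have mb : Measurable fun x => κ - M x := measurable_const.sub mM
  have lb := st_lb mb hM'
  have m0 : MeasurableSet {x | φ x = c} := (isClosed_eq hc continuous_const).measurableSet
  have m1 : MeasurableSet {x | φ x < c} := (isOpen_lt hc continuous_const).measurableSet
  have m2 : ∀ t : ℝ, MeasurableSet {x | c - t < φ x} := fun t =>
    (isOpen_lt continuous_const hc).measurableSet
  by_cases h : 0 < ∫ x in cube n, (cube n ∩ {x | φ x = c}).indicator (fun x => κ - M x) x
  · rw [st_int (cube_meas.inter m0) inter_subset_left] at h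
    obtain ⟨I, hI⟩ : ∃ I, I = ∫ x in cube n ∩ {x | φ x = c}, (κ - M x) := ⟨_, rfl⟩
    rw [← hI] at h
    obtain ⟨l, l0, l1, l2⟩ : ∃ l : ℝ, 0 < l ∧ 2 * l ≤ 1 ∧ κ * (2 * l) ≤ I / 2 :=
      ⟨min (1 / 2) (I / (4 * κ)), by positivity, by linarith [min_le_left (1 / 2) (I / (4 * κ))],
        by
          have := (le_div_iff₀ (show 0 < 4 * κ by positivity)).1
            (min_le_right (1 / 2) (I / (4 * κ)))
          linarith⟩
    refine ⟨l, I / 2, l0, half_pos h, ?_⟩
    filter_upwards [Ioo_mem_nhdsGT (zero_lt_one' ℝ)] with t ht x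
    have e1 := integral_inter_add_sdiff (s := cube n ∩ {x | φ x = c})
      (measurableSet_closedBall (x := x) (ε := l)) (lb.intOn cube_compact inter_subset_left)
    have e2 : ∫ y in (cube n ∩ {x | φ x = c}) ∩ closedBall x l, (κ - M y) ≤ I / 2 := by
      have b1 := setIntegral_mono_set (lb.intOn (isCompact_closedBall x l) subset_rfl)
        (Eventually.of_forall fun y => (hM' y).1)
        (inter_subset_right (s := cube n ∩ {x | φ x = c})).eventuallyLE
      have b2 := norm_setIntegral_le_of_norm_le_const (μ := volume) (s := closedBall x l)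
        (f := fun y => κ - M y) (C := κ) measure_closedBall_lt_top fun y _ => by
          rw [Real.norm_of_nonneg (hM' y).1]
          exact (hM' y).2
      have b3 : volume.real (closedBall x l) ≤ 2 * l := by
        rw [Measure.real, Real.volume_pi_closedBall x l0.le, ENNReal.toReal_ofReal (by positivity),
          Fintype.card_fin]
        exact pow_le_of_le_one (by positivity) l1 (by omega)
      have b4 := mul_le_mul_of_nonneg_left b3 κ0.le
      exact b1.trans ((le_abs_self _).trans (b2.trans (b4.trans l2)))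
    have e3 := setIntegral_mono_set (lb.intOn cube_compact
      ((sdiff_subset (s := cube n ∩ {y | c - t < φ y}) (t := closedBall x l)).trans
        inter_subset_left)) (Eventually.of_forall fun y => (hM' y).1)
      (sdiff_subset_sdiff_left (s₁ := cube n ∩ {x | φ x = c}) (inter_subset_inter_right _
        fun y hy => show c - t < φ y by linarith [show φ y = c from hy, ht.1])).eventuallyLE
    nlinarith [ht.2]
  · have a2 := st_zero mb hM' cube_meas m0 subset_rfl (not_lt.1 h)
    have z : ∀ {S : Set (Fin n → ℝ)}, volume (cube n ∩ S) = 0 →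
        ∀ᵐ x ∂volume.restrict (cube n), x ∉ S := fun h0 =>
      (ae_restrict_iff' cube_meas).2 ((measure_eq_zero_iff_ae_notMem.1 h0).mono
        fun x hx h1 h2 => hx ⟨h1, h2⟩)
    have v1 : volume (cube n ∩ {y | φ y < c}) ≠ 0 := fun h0 => I1.ne <| by
      rw [integral_congr_ae (g := fun _ => κ), setIntegral_const, lv_vol, one_smul]
      filter_upwards [z h0, a1, a2] with x h1 h2 h3
      rcases (not_lt.1 h1).eq_or_lt with h4 | h4
      · exact (sub_eq_zero.1 (h3 h4.symm)).symm
      · exact h2 h4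
    have v2 : volume (cube n ∩ {y | c ≤ φ y}) ≠ 0 := fun h0 => I0.ne' <| by
      rw [integral_congr_ae (g := fun _ => 0), integral_zero]
      filter_upwards [z h0, a0] with x h1 h2
      exact h2 (not_le.1 h1)
    obtain ⟨l, c₀, l0, c0, H⟩ := R φ c hφ v1 v2
    · refine ⟨l, κ * c₀, l0, mul_pos κ0 c0, H.mono fun t ht x => ?_⟩
      have sub : (cube n ∩ {y | c - t < φ y}) \ closedBall x l ⊆ cube n :=
        sdiff_subset.trans inter_subset_left
      rw [mul_assoc]
      refine (mul_le_mul_of_nonneg_left (ht x) κ0.le).trans ?_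
      rw [← integral_const_mul]
      refine integral_mono_ae (((LB.ind m1).cmul κ).intOn cube_compact sub)
        (lb.intOn cube_compact sub) ((ae_restrict_of_ae_restrict_of_subset sub a0).mono
          fun y hy => ?_)
      by_cases hy' : φ y < c
      · simp [hy', hy hy']
      · simpa [hy'] using (hM y).2

end Pool.Agent.MP_478eab_an.R
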