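import Pool.Agent.MP_478eab_an.R.Spec

/-! The logarithmic cut-off. -/

namespace Pool.Agent.MP_478eab_an.R

open MeasureTheory Set Filter Topology Metric Pool.Agent.MP_478eab_an.V Pool.Agent.MP_478eab_an.P

variable {n : ℕ}

theorem lg_ib (x : Fin n → ℝ) {r : ℝ} (hr : 0 ≤ r) : ∫ y in cube n, ib x r y ≤ (2 * r) ^ n := by
  have h1 : ∫ y, ib x r y = (2 * r) ^ n := by
    unfold ib
    rw [integral_indicator measurableSet_closedBall]
    simp [Measure.real, Real.volume_pi_closedBall x hr, ENNReal.toReal_ofReal,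
      show 0 ≤ (2 * r) ^ n by positivity]
  rw [← h1]
  refine setIntegral_le_integral ?_ (Eventually.of_forall fun y => (ib_bd x y r).1)
  exact (integrable_indicator_iff measurableSet_closedBall).2
    (integrableOn_const (isCompact_closedBall x r).measure_lt_top.ne)

theorem lg_sum (hn : 2 ≤ n) : ∃ C : ℝ, 0 < C ∧ ∀ (x : Fin n → ℝ) (l : ℝ), 0 < l → l ≤ 1 →
    ∀ J : ℕ, ∃ F : (Fin n → ℝ) → ℝ, ContDiff ℝ 1 F ∧ (∀ y, 0 ≤ F y ∧ F y ≤ J) ∧
      (∀ y ∈ closedBall x (l / 2 ^ J), F y = J ∧ ∀ i, pd i F y = 0) ∧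
      (∀ y, y ∉ closedBall x l → F y = 0) ∧ ∫ y in cube n, gs F y ≤ J * C := by
  obtain ⟨C, C0, hB⟩ := bumpS (n := n)
  refine ⟨C * 4 ^ n, by positivity, fun x l l0 l1 J => ?_⟩
  induction J with
  | zero =>
    exact ⟨fun _ => 0, contDiff_const, by simp, fun y _ => ⟨by simp, fun i => pd_const i 0 y⟩,
      fun _ _ => rfl, by simp [gs, pd_const]⟩
  | succ J ih =>
    obtain ⟨F, cF, bF, iF, oF, eF⟩ := ih
    obtain ⟨r, hr⟩ : ∃ r, r = l / 2 ^ (J + 1) := ⟨_, rfl⟩
    have r0 : 0 < r := by rw [hr]; positivity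
    have r2 : 2 * r = l / 2 ^ J := by rw [hr]; field_simp; ring
    have r3 : 2 * r ≤ l := by
      rw [r2]
      exact div_le_self l0.le (one_le_pow₀ (by norm_num))
    obtain ⟨χ, cχ, bχ, iχ, oχ, gχ, pχ⟩ := hB x r r0
    have pa : ∀ y i, pd i (fun y => F y + χ y) y = pd i F y + pd i χ y := fun y i =>
      pd_add (cd_diff cF y) (cd_diff cχ y) i
    rw [← r2] at iF
    refine ⟨fun y => F y + χ y, cF.add cχ, fun y => ?_, fun y hy => ?_, fun y hy => ?_, ?_⟩
    · push_cast
      exact ⟨add_nonneg (bF y).1 (bχ y).1, add_le_add (bF y).2 (bχ y).2⟩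
    · rw [← hr] at hy
      have h2 := iF y (closedBall_subset_closedBall (by linarith) hy)
      refine ⟨by push_cast; rw [h2.1, iχ y hy], fun i => ?_⟩
      rw [pa, h2.2, pχ y (Or.inl hy), add_zero]
    · change F y + χ y = 0
      rw [oF y hy, oχ y fun h => hy (closedBall_subset_closedBall r3 h), add_zero]
    · have h1 := lin2 (a := 1) (b := C / r ^ 2) cube_meas
        (LB.of_cont (gs_continuous (cF.add cχ))).cube (LB.of_cont (gs_continuous cF)).cube
        (ib_lb x (2 * r)).cube fun y _ => by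
          by_cases hy : y ∈ closedBall x (2 * r)
          · have : gs (fun y => F y + χ y) y = gs χ y := by
              simp only [gs, pa, (iF y hy).2, zero_add]
            rw [this, ib_mem hy]
            linarith [gχ y, gs_nonneg F y]
          · have : gs (fun y => F y + χ y) y = gs F y := by
              simp only [gs, pa, pχ y (Or.inr hy), add_zero]
            rw [this, ib_not hy]
            linarith
      have h2 := lg_ib x (r := 2 * r) (by linarith)
      have h3 : (2 * (2 * r)) ^ n ≤ 4 ^ n * r ^ 2 := by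
        rw [show 2 * (2 * r) = 4 * r by ring, mul_pow]
        exact mul_le_mul_of_nonneg_left (pow_le_pow_of_le_one r0.le (by linarith) hn)
          (by positivity)
      have h4 : C / r ^ 2 * ∫ y in cube n, ib x (2 * r) y ≤ C * 4 ^ n := by
        refine (mul_le_mul_of_nonneg_left (h2.trans h3) (by positivity)).trans_eq ?_
        field_simp
      push_cast
      linarith

theorem logS (hn : 2 ≤ n) : LogS n := by
  intro ε l ε0 l0
  obtain ⟨C, C0, hC⟩ := lg_sum hn
  obtain ⟨m, m0, m1, m2, m3⟩ : ∃ m : ℝ, 0 < m ∧ m ≤ l ∧ m ≤ 1 / 2 ∧ m ≤ ε / 4 :=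
    ⟨min l (min (1 / 2) (ε / 4)), by positivity, min_le_left _ _,
      (min_le_right _ _).trans (min_le_left _ _), (min_le_right _ _).trans (min_le_right _ _)⟩
  obtain ⟨J, hJ⟩ := exists_nat_gt (2 * C / ε)
  have J0 : (0 : ℝ) < J := lt_trans (by positivity) hJ
  refine ⟨m / 2 ^ J, by positivity,
    (div_le_self m0.le (one_le_pow₀ (by norm_num))).trans (by linarith), fun x => ?_⟩
  obtain ⟨F, cF, bF, iF, oF, eF⟩ := hC x m m0 (by linarith) J
  have b01 : ∀ y, 0 ≤ (J : ℝ)⁻¹ * F y ∧ (J : ℝ)⁻¹ * F y ≤ 1 := fun y =>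
    ⟨mul_nonneg (by positivity) (bF y).1, by
      rw [inv_mul_le_iff₀ J0, mul_one]; exact (bF y).2⟩
  have cψ : ContDiff ℝ 1 fun y => (J : ℝ)⁻¹ * F y := contDiff_const.mul cF
  refine ⟨fun y => (J : ℝ)⁻¹ * F y, cψ, b01, fun y hy => ?_, fun y hy => ?_, ?_⟩
  · change (J : ℝ)⁻¹ * F y = 1
    rw [(iF y hy).1, inv_mul_cancel₀ J0.ne']
  · change (J : ℝ)⁻¹ * F y = 0
    rw [oF y fun h => hy (closedBall_subset_closedBall m1 h), mul_zero]
  · have h1 := lin2 (a := (J : ℝ)⁻¹ ^ 2) (b := 1) cube_meas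
      (LB.of_cont ((gs_continuous cψ).add (cψ.continuous.pow 2))).cube
      (LB.of_cont (gs_continuous cF)).cube (ib_lb x m).cube fun y _ => by
        have e : gs (fun y => (J : ℝ)⁻¹ * F y) y = (J : ℝ)⁻¹ ^ 2 * gs F y :=
          gs_comp (g := fun t => (J : ℝ)⁻¹ * t)
            (by simpa using (hasDerivAt_id (F y)).const_mul (J : ℝ)⁻¹) (cd_diff cF y)
        simp only [Pi.add_apply, Pi.pow_apply, e]
        by_cases hy : y ∈ closedBall x m
        · rw [ib_mem hy]
          nlinarith [b01 y]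
        · rw [ib_not hy, oF y hy]
          simp
    have h2 := lg_ib x m0.le
    have h3 : (2 * m) ^ n ≤ 2 * m :=
      pow_le_of_le_one (by linarith) (by linarith) (by omega)
    have h4 : (J : ℝ)⁻¹ ^ 2 * ∫ y in cube n, gs F y ≤ ε / 2 := by
      refine (mul_le_mul_of_nonneg_left eF (by positivity)).trans ?_
      rw [div_lt_iff₀ ε0] at hJ
      rw [show (J : ℝ)⁻¹ ^ 2 * (J * C) = C / J by field_simp, div_le_iff₀ J0]
      linarith
    simp only [Pi.add_apply, Pi.pow_apply] at h1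
    linarith

end Pool.Agent.MP_478eab_an.R
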