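import Mathlib
import Pool.Agent.MP_478eab_an.R.Spec

/-! Assembly for `μ = 1`. -/

namespace Pool.Agent.MP_478eab_an.R

open MeasureTheory Set Filter Topology Metric Pool.Agent.MP_478eab_an.V Pool.Agent.MP_478eab_an.P

variable {n : ℕ}

theorem rm_symm {κ η K : ℝ} {M φ : (Fin n → ℝ) → ℝ} (h : MvG κ M φ η K) :
    MvG κ (fun x => κ - M x) (fun x => -φ x) η K := by
  intro g mg zg bg ig sg
  have := h (fun x => -g x) mg.neg (fun x hx => by simp [zg x hx])
    (fun x => ⟨by linarith [bg x], by linarith [bg x]⟩) (by simp [integral_neg, ig])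
    (by simpa using sg)
  simpa using this

theorem rm_shift {φ : (Fin n → ℝ) → ℝ} (c : ℝ) (i : Fin n) (x : Fin n → ℝ) :
    pd i (fun y => φ y - c) x = pd i φ x := by simp [pd, fderiv_sub_const]

theorem regMain (hn : 2 ≤ n) (P : PdeG n) (L : LevS n) (O : OneS n) (R : Res2S n) (D : DimS n) :
    RegMain n := by
  intro κ M θ hκ hM h0 h1 w p mx
  have W : WeakS n := weakS hn foldS monoS regS
  obtain ⟨θ', sw, hb, e⟩ := normS foldS W (repS foldS W) κ M θ hκ hM w p
  obtain ⟨φ, η, K, f, cφ, hol, η0, K0, f0, lo, mv⟩ := P κ M θ' hκ hM h0 sw hb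
    fun M' u a b c d => (mx M' u a b c d).trans_eq (setIntegral_congr_fun cube_meas e).symm
  obtain ⟨c, c1, c2⟩ := L κ η K M φ hM.meas hM.bd cφ.continuous η0 K0 mv
  have lM : LB M := LB.of_bound hM.meas (C := κ) fun x => by
    rw [abs_of_nonneg (hM.bd x).1]
    exact (hM.bd x).2
  have lM' : LB fun x => κ - M x := (LB.const κ).sub lM
  have bM' : ∀ x, 0 ≤ κ - M x ∧ κ - M x ≤ κ := fun x =>
    ⟨by linarith [hM.bd x], by linarith [hM.bd x]⟩
  have iM' : ∫ x in cube n, (κ - M x) = κ - ∫ x in cube n, M x := by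
    rw [integral_sub (LB.const κ).cube lM.cube, int_cube_const]
  obtain ⟨A, hA⟩ := O κ η K f c M φ hM.meas hM.bd cφ.continuous η0 K0 f0 (Or.inl lo) mv
    (R κ c M φ hM.meas hM.bd cφ h0 h1 c1 c2)
  obtain ⟨B, hB⟩ := O κ η K f (-c) (fun x => κ - M x) (fun x => -φ x) lM'.1 bM' cφ.continuous.neg
    η0 K0 f0 (Or.inr fun x => neg_le_neg (lo x)) (rm_symm mv)
    (R κ (-c) _ _ lM'.1 bM' cφ.neg (by linarith) (by linarith)
      (c2.mono fun x hx h => by rw [hx (neg_lt_neg_iff.1 h), sub_self])
      (c1.mono fun x hx h => by rw [hx (neg_lt_neg_iff.1 h), sub_zero]))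
  have cc := cφ.continuous
  have strip : ∀ᶠ t in 𝓝[>] (0 : ℝ),
      volume.real (cube n ∩ {x | |φ x - c| < t}) ≤ (A + B) / κ * t := by
    filter_upwards [hA, hB] with t a b
    have mS : MeasurableSet (cube n ∩ {x | |φ x - c| < t}) :=
      cube_meas.inter (measurableSet_lt (by fun_prop) measurable_const)
    have a' : ∫ x in cube n ∩ {x | |φ x - c| < t}, M x ≤ A * t := le_trans
      (setIntegral_mono_set (lM.intOn cube_compact inter_subset_left)
        (Eventually.of_forall fun x => (hM.bd x).1) (LE.le.eventuallyLE fun x hx =>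
          ⟨hx.1, show φ x < c + t by linarith [(abs_lt.1 (show |φ x - c| < t from hx.2)).2]⟩)) a
    have b' : ∫ x in cube n ∩ {x | |φ x - c| < t}, (κ - M x) ≤ B * t := le_trans
      (setIntegral_mono_set (lM'.intOn cube_compact inter_subset_left)
        (Eventually.of_forall fun x => (bM' x).1) (LE.le.eventuallyLE fun x hx =>
          ⟨hx.1, show -φ x < -c + t by linarith [(abs_lt.1 (show |φ x - c| < t from hx.2)).1]⟩)) b
    rw [integral_sub ((LB.const κ).intOn cube_compact inter_subset_left)
      (lM.intOn cube_compact inter_subset_left), setIntegral_const, smul_eq_mul] at b'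
    rw [div_mul_eq_mul_div, le_div_iff₀ hκ]
    linarith
  have null : ∀ᵐ x ∂volume.restrict (cube n), φ x ≠ c := by
    have fin : ∀ S : Set (Fin n → ℝ), volume (cube n ∩ S) ≠ ⊤ := fun S =>
      ((measure_mono inter_subset_left).trans_lt cube_compact.measure_lt_top).ne
    have z : volume.real (cube n ∩ {x | φ x = c}) ≤ 0 := by
      have l : Tendsto (fun t : ℝ => (A + B) / κ * t) (𝓝[>] 0) (𝓝 0) := by
        have : Tendsto (fun t : ℝ => (A + B) / κ * t) (𝓝 0) (𝓝 ((A + B) / κ * 0)) :=
          tendsto_id.const_mul _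
        rw [mul_zero] at this
        exact this.mono_left nhdsWithin_le_nhds
      refine ge_of_tendsto l ?_
      filter_upwards [strip, self_mem_nhdsWithin] with t a t0
      refine le_trans (measureReal_mono (inter_subset_inter_right _ fun x hx => ?_) (fin _)) a
      show |φ x - c| < t
      rw [show φ x = c from hx, sub_self, abs_zero]
      exact t0
    rw [ae_iff, Measure.restrict_apply' cube_meas, inter_comm]
    simpa using (measureReal_eq_zero_iff (fin _)).1 (le_antisymm z measureReal_nonneg)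
  refine ⟨fun x => φ x - c, cφ.sub contDiff_const, fun α a0 a1 => ?_, ?_, ?_⟩
  · simpa only [rm_shift] using hol α a0 a1
  · filter_upwards [c1, c2, null] with x a b d
    rcases lt_or_gt_of_ne d with h | h
    · rw [a h, indicator_of_notMem (s := {y | 0 < φ y - c}) (show ¬ 0 < φ x - c by linarith)]
    · rw [b h, indicator_of_mem (s := {y | 0 < φ y - c}) (show 0 < φ x - c by linarith)]
  · simpa only [rm_shift, sub_eq_zero] using D φ c _ cφ hol strip

end Pool.Agent.MP_478eab_an.R
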