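import Pool.Agent.MP_478eab_an.R.Spec

/-! A reservoir on one side of the level bounds the strip on the other side. -/

namespace Pool.Agent.MP_478eab_an.R

open MeasureTheory Set Filter Topology Metric Pool.Agent.MP_478eab_an.V Pool.Agent.MP_478eab_an.P

variable {n : ℕ}

theorem on1_small {κ η K f₀ c c₀ t K₁ : ℝ} {M φ a b ψ : (Fin n → ℝ) → ℝ}
    (D : st_Dip κ t (c + t) (c - t / c₀) M φ (cube n) a b) (hM : ∀ x, 0 ≤ M x ∧ M x ≤ κ)
    (hφ : Continuous φ) (K0 : 0 < K) (f0 : 0 < f₀) (c0 : 0 < c₀) (t0 : 0 < t)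
    (hf : (∀ x, f₀ ≤ φ x) ∨ ∀ x, φ x ≤ -f₀) (hv : MvG κ M φ η K) (hK : K₁ = 8 * K + 1 + 1 / c₀)
    (hη : 2 * t ≤ η) (ht : 8 * K₁ * t ≤ f₀) (p1 : ContDiff ℝ 1 ψ) (p2 : ∀ y, 0 ≤ ψ y ∧ ψ y ≤ 1)
    (p3 : ∀ y, a y ≠ 0 → ψ y = 1) (p4 : ∀ y, b y ≠ 0 → ψ y = 0)
    (p5 : ∫ y in cube n, (gs ψ y + ψ y ^ 2) ≤ f₀ ^ 2 / (64 * K₁ * K)) : False := by
  obtain ⟨la, lb⟩ := D.lb hM
  have K1 : 0 < K₁ := by
    rw [hK]
    positivity
  have h0 : ∫ x in cube n, |b x - a x| ≤ 2 * t := by
    have := lin2 cube_meas (lb.sub la).cube.abs la.cube lb.cube (a := 1) (b := 1) fun x _ => by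
      have h1 := (D.ba x).1
      have h2 := (D.bb x).1
      exact abs_le.2 ⟨by linarith, by linarith⟩
    rw [D.ia, D.ib] at this
    linarith
  obtain ⟨h1, h2⟩ := hv (fun x => b x - a x) (D.mb.sub D.ma)
    (fun x hx => by
      rw [of_not_not fun h => hx (D.sa x h).1, of_not_not fun h => hx (D.sb x h).1, sub_self])
    (fun x => by
      have h1 := D.ba x
      have h2 := D.bb x
      exact ⟨by linarith, by linarith⟩)
    (by rw [integral_sub lb.cube la.cube, D.ia, D.ib, sub_self]) (h0.trans hη)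
  have h3 := h2 ψ p1 p2 (16 * K₁ * t / f₀) (by positivity)
  have h4 := D.low hM hφ
  have h5 := mul_le_mul_of_nonneg_left
    (pow_le_pow_left₀ (integral_nonneg fun x => abs_nonneg _) h0 2) K0.le
  have h6 : f₀ * t ≤ |∫ x in cube n, (b x - a x) * φ x * ψ x| := by
    have e : (fun x => (b x - a x) * φ x * ψ x) = fun x => -(a x * φ x) := funext fun x => by
      by_cases hb : b x = 0
      · by_cases ha : a x = 0
        · simp [ha, hb]
        · rw [p3 x ha, hb]
          ring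
      · have ha : a x = 0 := of_not_not fun ha => one_ne_zero ((p3 x ha).symm.trans (p4 x hb))
        rw [p4 x hb, ha]
        ring
    rw [e, integral_neg, ← D.ia]
    rcases hf with hf | hf
    · rw [abs_neg]
      exact (st_ge la (fun x => (D.ba x).1) hφ fun x _ => hf x).trans (le_abs_self _)
    · refine le_trans ?_ (le_abs_self _)
      linarith [st_le la (fun x => (D.ba x).1) hφ fun x _ => hf x]
  generalize ∫ x in cube n, (b x - a x) * φ x = X at h1 h3 h4
  generalize K * (∫ x in cube n, |b x - a x|) ^ 2 = Y at h1 h3 h5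
  have e1 : (c - t / c₀ - (c + t)) * t = -((1 + 1 / c₀) * t ^ 2) := by ring
  have q1 : 0 ≤ K * t ^ 2 := by positivity
  have q2 : 0 ≤ (1 + 1 / c₀) * t ^ 2 := by positivity
  have h7 : |X| ≤ 4 * (K * t ^ 2) + (1 + 1 / c₀) * t ^ 2 := abs_le.2 ⟨by linarith, by linarith⟩
  have h8 : |X| + Y ≤ K₁ * t ^ 2 := by
    rw [hK]
    linarith
  have h9 := mul_le_mul_of_nonneg_left h8 (show 0 ≤ 4 / (16 * K₁ * t / f₀) + 2 by positivity)
  have e2 : (4 / (16 * K₁ * t / f₀) + 2) * (K₁ * t ^ 2) = f₀ * t / 4 + 8 * K₁ * t * t / 4 := by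
    field_simp
    ring
  have h10 := mul_le_mul_of_nonneg_left (mul_le_mul_of_nonneg_left p5 K0.le)
    (show 0 ≤ 16 * K₁ * t / f₀ by positivity)
  have e3 : 16 * K₁ * t / f₀ * (K * (f₀ ^ 2 / (64 * K₁ * K))) = f₀ * t / 4 := by
    field_simp
    ring
  have h11 := mul_le_mul_of_nonneg_right ht t0.le
  linarith [mul_pos f0 t0]

theorem oneS (_hn : 2 ≤ n) (L : LogS n) : OneS n := by
  rintro κ η K f₀ c M φ mM hM hφ η0 K0 f0 hf hv ⟨l, c₀, l0, c0, hR⟩
  obtain ⟨K₁, hK⟩ : ∃ K₁, K₁ = 8 * K + 1 + 1 / c₀ := ⟨_, rfl⟩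
  have K1 : 0 < K₁ := by
    rw [hK]
    positivity
  obtain ⟨s, s0, s1, hs⟩ := L (f₀ ^ 2 / (64 * K₁ * K)) l (by positivity) l0
  obtain ⟨T, -, -, hT⟩ := (covS (n := n)).2 s s0 s1
  refine ⟨T.card, ?_⟩
  have hM' : ∀ x, 0 ≤ κ - M x := fun x => sub_nonneg.2 (hM x).2
  have td : Tendsto (fun t : ℝ => t / c₀) (𝓝[>] 0) (𝓝[>] 0) := by
    refine tendsto_nhdsWithin_iff.2 ⟨?_, ?_⟩
    · have : Tendsto (fun t : ℝ => t / c₀) (𝓝 0) (𝓝 (0 / c₀)) := tendsto_id.div_const c₀
      rw [zero_div] at this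
      exact this.mono_left nhdsWithin_le_nhds
    · filter_upwards [self_mem_nhdsWithin] with t ht
      exact div_pos ht c0
  filter_upwards [td.eventually hR, Ioo_mem_nhdsGT (show (0 : ℝ) < min (η / 2) (f₀ / (8 * K₁)) by
    positivity)] with t hr ht
  have t0 := ht.1
  have t1 := (le_div_iff₀' two_pos).1 (ht.2.trans_le (min_le_left _ _)).le
  have t2 := (le_div_iff₀' (by positivity)).1 (ht.2.trans_le (min_le_right _ _)).le
  have m1 := cube_meas.inter (isOpen_lt hφ (continuous_const (y := c + t))).measurableSet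
  have m2 := cube_meas.inter (isOpen_lt (continuous_const (y := c - t / c₀)) hφ).measurableSet
  obtain ⟨a, ha⟩ : ∃ a, a = (cube n ∩ {x | φ x < c + t}).indicator M := ⟨_, rfl⟩
  have ma : Measurable a := ha ▸ mM.indicator m1
  have ba : ∀ x, 0 ≤ a x ∧ a x ≤ M x := ha ▸ st_ind _ fun x => (hM x).1
  have sa : ∀ x, a x ≠ 0 → x ∈ cube n ∧ φ x ≤ c + t := fun x hx => by
    rw [ha] at hx
    exact ⟨(mem_of_indicator_ne_zero hx).1, le_of_lt (mem_of_indicator_ne_zero hx).2⟩
  have la : LB a := st_lb ma (κ := κ) fun x => ⟨(ba x).1, (ba x).2.trans (hM x).2⟩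
  have key : ∀ y, ∫ x in cube n, (closedBall y s).indicator a x ≤ t := fun y => by
    refine not_lt.1 fun h => ?_
    obtain ⟨ψ, p1, p2, p3, p4, p5⟩ := hs y
    have m3 := m2.diff (measurableSet_closedBall (x := y) (ε := l))
    have h1 := hr y
    rw [mul_div_cancel₀ _ c0.ne', ← st_int m3 (sdiff_subset.trans inter_subset_left)] at h1
    obtain ⟨a', b', D, a4, b4⟩ := st_mk (T := cube n) (φ := φ) (u := c + t) (v := c - t / c₀)
      (κ := κ) (M := M) (ma.indicator measurableSet_closedBall)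
      ((measurable_const.sub mM).indicator m3)
      (fun x => (st_ind _ (fun x => (ba x).1) x).imp_right fun h => h.trans (ba x).2)
      (st_ind _ hM') (fun x hx => sa x (indicator_apply_ne_zero.1 hx).2)
      (fun x hx => ⟨(mem_of_indicator_ne_zero hx).1.1,
        le_of_lt (mem_of_indicator_ne_zero hx).1.2⟩) t0 h.le h1
    exact on1_small D hM hφ K0 f0 c0 t0 hf hv hK t1 t2 p1 p2
      (fun x hx => p3 x (mem_of_indicator_ne_zero (a4 x hx)))
      (fun x hx => p4 x (mem_of_indicator_ne_zero (b4 x hx)).2) p5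
  have ii : ∀ y ∈ T, Integrable ((closedBall y s).indicator a) (volume.restrict (cube n)) :=
    fun y _ => la.cube.indicator measurableSet_closedBall
  rw [← st_int m1 inter_subset_left, ← ha]
  calc ∫ x in cube n, a x ≤ ∫ x in cube n, ∑ y ∈ T, (closedBall y s).indicator a x := by
        refine setIntegral_mono_on la.cube (integrable_finsetSum _ ii) cube_meas fun z hz => ?_
        obtain ⟨y, hy, hzy⟩ := hT z hz
        rw [← indicator_of_mem hzy a]
        exact Finset.single_le_sum (f := fun y => (closedBall y s).indicator a z)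
          (fun y _ => indicator_nonneg (fun x _ => (ba x).1) z) hy
    _ = ∑ y ∈ T, ∫ x in cube n, (closedBall y s).indicator a x := integral_finsetSum _ ii
    _ ≤ T.card * t := by
        rw [← nsmul_eq_mul]
        exact Finset.sum_le_card_nsmul _ _ _ fun y _ => key y

end Pool.Agent.MP_478eab_an.R
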