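import Mathlib
import Pool.Agent.MP_478eab_an.R.Spec

/-! The analytic half: the global consequence of maximality. -/

namespace Pool.Agent.MP_478eab_an.R

open MeasureTheory Set Filter Topology Metric Pool.Agent.MP_478eab_an.V Pool.Agent.MP_478eab_an.P

variable {n : ℕ}

theorem pg_dat {κ τ B : ℝ} {M θ p : (Fin n → ℝ) → ℝ} (hκ : 0 < κ) (hτ : 0 < τ) (lM : LB M)
    (w : WS θ fun x => θ x * (M x - θ x)) (wp : WS p fun x => (M x - 2 * θ x) * p x + 1)
    (hb : ∀ x, τ ≤ θ x ∧ θ x ≤ κ) (p1 : ∀ x, 1 ≤ 2 * κ * p x)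
    (b1 : ∀ x i, |θ x| ≤ B ∧ |pd i θ x| ≤ B) (b2 : ∀ x i, |p x| ≤ B ∧ |pd i p x| ≤ B) :
    ∃ L, Dat L θ (fun x => θ x * p x) fun i y => θ y * pd i p y - p y * pd i θ y := by
  have t0 : ∀ x, 0 < θ x := fun x => hτ.trans_le (hb x).1
  have p0 : ∀ x, 0 < p x := fun x => by
    by_contra h
    nlinarith [not_lt.1 h, p1 x]
  have lo : ∀ x, τ ≤ 2 * κ * (θ x * p x) := fun x => by nlinarith [hb x, p1 x, t0 x]
  have n0 : (0 : ℝ) ≤ n := Nat.cast_nonneg n
  obtain ⟨A, hA⟩ : ∃ A, A = 4 * κ * B ^ 2 / τ := ⟨_, rfl⟩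
  have A0 : 0 ≤ A := by rw [hA]; positivity
  have hA' : ∀ x, 2 * B ^ 2 ≤ A * (θ x * p x) := fun x => by
    rw [hA, div_mul_eq_mul_div, le_div_iff₀ hτ]
    nlinarith [mul_le_mul_of_nonneg_left (lo x) (sq_nonneg B)]
  have m : ∀ {a b : ℝ}, |a| ≤ B → |b| ≤ B → |a * b| ≤ B ^ 2 := fun ha hb => by
    rw [abs_mul, sq]; exact mul_le_mul ha hb (abs_nonneg _) ((abs_nonneg _).trans ha)
  obtain ⟨L, hL⟩ : ∃ L, L = 1 + 2 * κ + (n + 1) * A := ⟨_, rfl⟩
  have l1 : 1 + 2 * κ ≤ L := by rw [hL]; nlinarith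
  have l2 : (n + 1) * A ≤ L := by rw [hL]; linarith
  have l3 : 2 * κ ≤ L ^ 2 := by nlinarith
  refine ⟨L, by linarith, w.1.continuous, w.1.mul wp.1, fun i =>
    (w.1.continuous.mul (pd_continuous wp.1 i)).sub (wp.1.continuous.mul (pd_continuous w.1 i)),
    t0, fun x => mul_pos (t0 x) (p0 x), fun x i => ?_, fun x => ?_,
    fun x => by linarith [(hb x).2], fun x => ?_, idS.2 θ p M lM w wp⟩
  · rw [pd_mul (cd_diff w.1 x) (cd_diff wp.1 x)]
    have := mul_le_mul_of_nonneg_right (show A ≤ L by nlinarith) (mul_pos (t0 x) (p0 x)).le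
    linarith [abs_add_le (pd i θ x * p x) (θ x * pd i p x), m (b1 x i).2 (b2 x i).1,
      m (b1 x i).1 (b2 x i).2, hA' x]
  · have q := mul_pos (t0 x) (p0 x)
    have h1 : ∀ i, (θ x * pd i p x - p x * pd i θ x) ^ 2 ≤ (A * (θ x * p x)) ^ 2 := fun i => by
      rw [← sq_abs]
      refine pow_le_pow_left₀ (abs_nonneg _) ?_ 2
      linarith [abs_sub (θ x * pd i p x) (p x * pd i θ x), m (b2 x i).1 (b1 x i).2,
        m (b1 x i).1 (b2 x i).2, hA' x]
    refine (Finset.sum_le_sum fun i _ => h1 i).trans ?_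
    rw [Finset.sum_const, Finset.card_univ, Fintype.card_fin, nsmul_eq_mul, mul_pow, ← mul_assoc]
    refine mul_le_mul_of_nonneg_right ?_ (sq_nonneg _)
    have := pow_le_pow_left₀ (by positivity) l2 2
    nlinarith [sq_nonneg A, mul_nonneg (mul_nonneg n0 n0) (sq_nonneg A), mul_nonneg n0 (sq_nonneg A)]
  · have q := mul_pos (t0 x) (p0 x)
    nlinarith [mul_le_mul_of_nonneg_left (p1 x) (t0 x).le, mul_le_mul_of_nonneg_right l3 q.le]

theorem pdeG (hn : 2 ≤ n) (H : HolS n) (Ka : KatoS n) (Na : NashS n) : PdeG n := by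
  intro κ M θ hκ hM h0 hθ hb hx
  have W : WeakS n := weakS hn foldS monoS regS
  have R := repS foldS W
  have G := gradS R
  have E := exS W G harS
  obtain ⟨Cd, hCd, D⟩ := datS foldS G (grad2S foldS R) harS (adjS foldS W R) idS
  obtain ⟨p, hp, p1⟩ := adjS foldS W R κ M θ hκ hM hθ hb
  obtain ⟨F1, F2, F3, F4, F5⟩ := foldS (n := n)
  obtain ⟨h1, B1, b1⟩ := H.1 _ _ hθ
  obtain ⟨h2, B2, b2⟩ := H.1 _ _ hp
  have cθ := hθ.ws.1.continuous
  obtain ⟨xm, -, hm⟩ := cube_compact.exists_isMinOn ⟨_, F1 0⟩ cθ.continuousOn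
  have hτ := (hb xm).1
  have tl : ∀ x, θ xm ≤ θ x ∧ θ x ≤ κ := fun x => ⟨F5 θ hθ.su x ▸ hm (F1 x), (hb x).2⟩
  have lM : LB M := LB.of_bound hM.meas (C := κ) fun x => by
    rw [abs_of_nonneg (hM.bd x).1]
    exact (hM.bd x).2
  obtain ⟨L, dat⟩ := pg_dat (B := max B1 B2) hκ hτ lM hθ.ws hp.ws tl p1
    (fun x i => ⟨(b1 x i).1.trans (le_max_left _ _), (b1 x i).2.trans (le_max_left _ _)⟩)
    fun x i => ⟨(b2 x i).1.trans (le_max_right _ _), (b2 x i).2.trans (le_max_right _ _)⟩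
  have hol := H.2 θ p hθ.ws.1 hp.ws.1 h1 h2 ⟨B1, b1⟩ ⟨B2, b2⟩
  obtain ⟨φ, hφ⟩ : ∃ φ : (Fin n → ℝ) → ℝ, φ = fun x => θ x * p x := ⟨_, rfl⟩
  have hφ' : ∀ x, θ x * p x = φ x := fun x => by rw [hφ]
  rw [← hφ] at dat hol
  have cφ := dat.pc.continuous
  obtain ⟨f, hf⟩ : ∃ f, f = θ xm / (2 * κ) := ⟨_, rfl⟩
  have f0 : 0 < f := by rw [hf]; positivity
  have lo : ∀ x, f ≤ φ x := fun x => by
    rw [hf, div_le_iff₀ (by positivity), ← hφ']
    nlinarith [tl x, p1 x, (hb x).1]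
  obtain ⟨U, hU⟩ := cube_compact.exists_bound_of_continuousOn cφ.continuousOn
  have up : ∀ x ∈ cube n, φ x ≤ U := fun x hx => (le_abs_self _).trans (hU x hx)
  have U0 : 0 < U := (dat.p0 _).trans_le (up _ (F1 0))
  obtain ⟨CN, CN0, Na⟩ := Na (f / (4 * (κ * U))) (by positivity)
  obtain ⟨η, hη, S⟩ := smallS (n := n) (2 * (Cd * √κ)) (1 / 100) (by positivity) (by norm_num)
  obtain ⟨K₀, hK₀⟩ : ∃ K₀, K₀ = κ * U * CN * (4 * κ ^ 2 / θ xm ^ 3) ^ 2 := ⟨_, rfl⟩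
  have K0 : 0 < K₀ := by rw [hK₀]; positivity
  refine ⟨φ, θ xm ^ 3 * η / κ ^ 2, 2 * K₀ + U * (1 + L ^ 2), f, dat.pc, hol, by positivity,
    by positivity, f0, lo, fun h mh zh bh ih sh => ?_⟩
  have lh : LB h := LB.of_bound mh (C := κ) fun x =>
    abs_le.2 ⟨by linarith [hM.bd x, bh x], by linarith [hM.bd x, bh x]⟩
  obtain ⟨M', hM', eM⟩ : ∃ M' : (Fin n → ℝ) → ℝ, Rc κ M' ∧ ∀ x ∈ cube n, M' x - M x = h x :=
    ⟨fun x => M (fold x) + h (fold x), ⟨(hM.meas.add mh).comp F3.measurable,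
      F4 fun x => M x + h x, fun x => bh _⟩, fun x hx => by simp [F2 x hx]⟩
  have lM' : LB M' := LB.of_bound hM'.meas (C := κ) fun x => by
    rw [abs_of_nonneg (hM'.bd x).1]
    exact (hM'.bd x).2
  have iM : ∫ x in cube n, M' x = ∫ x in cube n, M x := by
    rw [← sub_eq_zero, ← integral_sub lM'.cube lM.cube, setIntegral_congr_fun cube_meas eM, ih]
  obtain ⟨θ', hθ', hb'⟩ := E κ M' hκ hM' (iM ▸ h0)
  obtain ⟨v, hv⟩ : ∃ v : (Fin n → ℝ) → ℝ, v = fun x => Real.log (θ' x) - Real.log (θ x) :=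
    ⟨_, rfl⟩
  have hv' : ∀ x, v x = Real.log (θ' x) - Real.log (θ x) := fun x => by rw [hv]
  have cv : ContDiff ℝ 1 v :=
    hv ▸ pe_cd hθ.ws.1 hθ'.ws.1 (fun x => (hb x).1) fun x => (hb' x).1
  have rsp : Rsp θ φ (fun i y => θ y * pd i p y - p y * pd i θ y) h v := by
    refine ⟨cv, lh, S _ cv (hv ▸ pe_lip hθ.ws.1 hθ'.ws.1 (fun x => (hb x).1) (fun x => (hb' x).1)
      (D κ M θ hκ hM hθ hb).1 (D κ M' θ' hκ hM' hθ' hb').1) ?_, fun ζ hζ => ?_, ?_⟩
    · have a := pe_mean idS lM lM' lh hθ.ws hθ'.ws hb hb' hτ (fun x hx => hm hx) eM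
      rw [le_div_iff₀ (by positivity)] at sh
      simp only [← hv'] at a
      exact le_of_mul_le_mul_left (a.trans ((mul_comm _ _).trans_le sh)) (by positivity)
    · have a := idS.1 θ θ' p M M' lM lM' hθ.ws hθ'.ws (fun x => (hb x).1) (fun x => (hb' x).1)
        hp.ws.1 v hv' ζ hζ
      simp only [hφ'] at a
      exact a.trans (setIntegral_congr_fun cube_meas fun x hx => by simp only [eM x hx])
    · have a : ∀ x, θ x * (Real.exp (v x) - 1) = θ' x - θ x := fun x => by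
        rw [hv', Real.exp_sub, Real.exp_log (hb x).1, Real.exp_log (hb' x).1, mul_sub,
          mul_div_cancel₀ _ (hb x).1.ne', mul_one]
      simp only [a]
      rw [integral_sub (LB.of_cont hθ'.ws.1.continuous).cube (LB.of_cont cθ).cube, sub_nonpos]
      exact hx M' θ' hM' iM hθ'.ws fun x => (hb' x).1
  have ka := Ka (θ xm) κ θ h v hτ cθ tl lh cv rsp.vb fun ζ hζ => by
    have a := idS.1 θ θ' θ M M' lM lM' hθ.ws hθ'.ws (fun x => (hb x).1) (fun x => (hb' x).1)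
      hθ.ws.1 v hv' ζ hζ
    simp only [wd, sub_self, zero_mul, Finset.sum_const_zero, mul_zero, add_zero] at a
    refine Eq.trans ?_ (a.trans (setIntegral_congr_fun cube_meas fun x hx => ?_))
    · congr 1; funext x; ring
    · simp only [eM x hx]; ring
  have vc := cv.continuous
  have gc := gs_continuous cv
  have mx := ky_max dat rsp
  have na := Na v cv
  have a1 := lin1 cube_meas (LB.of_cont (f := fun x => θ x * φ x * v x ^ 2) (by fun_prop)).cube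
    (LB.of_cont (f := fun x => v x ^ 2) (by fun_prop)).cube (a := κ * U) fun x hx =>
      mul_le_mul_of_nonneg_right (mul_le_mul (hb x).2 (up x hx) (dat.p0 x).le hκ.le) (sq_nonneg _)
  have a2 : f * ∫ x in cube n, gs v x ≤ ∫ x in cube n, φ x * gs v x := by
    rw [← integral_const_mul]
    exact setIntegral_mono_on (LB.of_cont (continuous_const.mul gc)).cube
      (LB.of_cont (cφ.mul gc)).cube cube_meas fun x _ =>
        mul_le_mul_of_nonneg_right (lo x) (gs_nonneg v x)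
  have a3 : (∫ x in cube n, |v x|) ^ 2
      ≤ (4 * κ ^ 2 / θ xm ^ 3) ^ 2 * (∫ x in cube n, |h x|) ^ 2 := by
    rw [← mul_pow]
    refine pow_le_pow_left₀ (integral_nonneg fun x => abs_nonneg _) ?_ 2
    rw [div_mul_eq_mul_div, le_div_iff₀ (by positivity), mul_comm]
    exact ka
  have D0 : 0 ≤ ∫ x in cube n, φ x * gs v x :=
    integral_nonneg fun x => mul_nonneg (dat.p0 x).le (gs_nonneg v x)
  have a4 : ∫ x in cube n, θ x * φ x * v x ^ 2
      ≤ (∫ x in cube n, φ x * gs v x) / 4 + K₀ * (∫ x in cube n, |h x|) ^ 2 := by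
    have b1 := mul_le_mul_of_nonneg_left na (show 0 ≤ κ * U by positivity)
    have b2 := mul_le_mul_of_nonneg_left a3 (show 0 ≤ κ * U * CN by positivity)
    have b3 : κ * U * (f / (4 * (κ * U)) * ∫ x in cube n, gs v x)
        = f * (∫ x in cube n, gs v x) / 4 := by field_simp
    rw [hK₀]
    linarith
  have s0 := sq_nonneg (∫ x in cube n, |h x|)
  have a5 := mul_nonneg K0.le s0
  have a6 := mul_nonneg (show 0 ≤ U * (1 + L ^ 2) by positivity) s0
  have a7 := neg_abs_le (∫ x in cube n, h x * φ x)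
  have a8 := abs_nonneg (∫ x in cube n, h x * φ x)
  refine ⟨by linarith, fun ψ cψ r γ hγ => (key2S L _ γ θ φ h v ψ _ dat rsp (by linarith)
    (by linarith) cψ r hγ).trans (add_le_add_right (mul_le_mul_of_nonneg_left ?_ hγ.le) _)⟩
  have c1 := cψ.continuous
  have c2 := gs_continuous cψ
  refine lin1 cube_meas (LB.of_cont (cφ.mul (c2.add (by fun_prop)))).cube
    (LB.of_cont (c2.add (by fun_prop))).cube fun x hx => ?_
  show φ x * (gs ψ x + L ^ 2 * ψ x ^ 2) ≤ (2 * K₀ + U * (1 + L ^ 2)) * (gs ψ x + ψ x ^ 2)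
  have g0 := gs_nonneg ψ x
  have g1 := sq_nonneg (ψ x)
  have g2 := sq_nonneg L
  have := mul_le_mul_of_nonneg_right (up x hx) (show 0 ≤ gs ψ x + L ^ 2 * ψ x ^ 2 by positivity)
  nlinarith [mul_nonneg K0.le (add_nonneg g0 g1), mul_nonneg U0.le g1,
    mul_nonneg (mul_nonneg U0.le g2) g0]

end Pool.Agent.MP_478eab_an.R
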