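import Pool.Agent.MP_478eab_an.R.Spec

/-! Poincare inequality for first powers; the strip below a nontrivial level is a reservoir. -/

namespace Pool.Agent.MP_478eab_an.R

open MeasureTheory Set Filter Topology Metric Pool.Agent.MP_478eab_an.V Pool.Agent.MP_478eab_an.P

variable {n : ℕ} {v : (Fin n → ℝ) → ℝ}

theorem p1_cont (hv : ContDiff ℝ 1 v) : Continuous fun x => ∑ i, |pd i v x| :=
  continuous_finsetSum _ fun i _ => (pd_continuous hv i).abs

theorem p1_dist {y z : Fin n → ℝ} (hy : y ∈ cube n) (hz : z ∈ cube n) (i : Fin n) :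
    |(y - z) i| ≤ 1 := by
  have a := hy.1 i
  have b := hy.2 i
  have c := hz.1 i
  have d := hz.2 i
  simp only [Pi.zero_apply, Pi.one_apply, Pi.sub_apply] at *
  exact abs_le.2 ⟨by linarith, by linarith⟩

theorem p1_line (hv : ContDiff ℝ 1 v) {y z : Fin n → ℝ} (hy : y ∈ cube n) (hz : z ∈ cube n) :
    |v y - v ((1 / 2 : ℝ) • (z + y))| ≤
      ∫ s in Icc (1 / 2 : ℝ) 1, ∑ i, |pd i v (z + s • (y - z))| := by
  have hc : Continuous fun s : ℝ => z + s • (y - z) := by fun_prop
  have hd : ∀ s : ℝ, HasDerivAt (fun s : ℝ => v (z + s • (y - z)))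
      (fderiv ℝ v (z + s • (y - z)) (y - z)) s := fun s =>
    (cd_diff hv _).hasFDerivAt.comp_hasDerivAt s
      (by simpa using ((hasDerivAt_id s).smul_const (y - z)).const_add z)
  have c1 : Continuous fun s : ℝ => fderiv ℝ v (z + s • (y - z)) (y - z) :=
    ((hv.continuous_fderiv one_ne_zero).comp hc).clm_apply continuous_const
  have e := intervalIntegral.integral_eq_sub_of_hasDerivAt (a := 1 / 2) (b := 1)
    (fun s _ => hd s) (c1.intervalIntegrable _ _)
  rw [intervalIntegral.integral_of_le (by norm_num), ← integral_Icc_eq_integral_Ioc,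
    show z + (1 : ℝ) • (y - z) = y by module,
    show z + (1 / 2 : ℝ) • (y - z) = (1 / 2 : ℝ) • (z + y) by module] at e
  rw [← e]
  refine abs_integral_le_integral_abs.trans (setIntegral_mono_on c1.abs.integrableOn_Icc
    ((p1_cont hv).comp hc).integrableOn_Icc measurableSet_Icc fun s _ => ?_)
  rw [fderiv_eq_sum]
  refine (Finset.abs_sum_le_sum_abs _ _).trans (Finset.sum_le_sum fun i _ => ?_)
  rw [abs_mul]
  exact mul_le_of_le_one_left (abs_nonneg _) (p1_dist hy hz i)

theorem p1_half (hv : ContDiff ℝ 1 v) {z : Fin n → ℝ} (hz : z ∈ cube n) :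
    ∫ y in cube n, |v y - v ((1 / 2 : ℝ) • (z + y))| ≤
      2 ^ n * ∫ y in cube n, ∑ i, |pd i v y| := by
  have cv := hv.continuous
  have cg := p1_cont hv
  have g0 : ∀ x, 0 ≤ ∑ i, |pd i v x| := fun x => Finset.sum_nonneg fun _ _ => abs_nonneg _
  have i : Integrable (fun p : (Fin n → ℝ) × ℝ => ∑ i, |pd i v (z + p.2 • (p.1 - z))|)
      ((volume.restrict (cube n)).prod (volume.restrict (Icc (1 / 2 : ℝ) 1))) := by
    rw [Measure.prod_restrict]
    exact ContinuousOn.integrableOn_compact (cube_compact.prod isCompact_Icc)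
      (cg.comp (by fun_prop)).continuousOn
  refine (setIntegral_mono_on (ContinuousOn.integrableOn_compact cube_compact (by fun_prop))
    i.integral_prod_left cube_meas fun y hy => p1_line hv hy hz).trans ?_
  rw [← integral_prod _ i, integral_prod_symm _ i]
  refine (setIntegral_mono_on i.integral_prod_right
    (g := fun _ => 2 ^ n * ∫ y in cube n, ∑ i, |pd i v y|) continuous_const.integrableOn_Icc
    measurableSet_Icc fun s hs => po_scale cube_compact (convex_Icc 0 1) cg g0 hz hs).trans ?_
  rw [setIntegral_const, Real.volume_real_Icc_of_le (by norm_num), smul_eq_mul]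
  exact mul_le_of_le_one_left (mul_nonneg (by positivity) (integral_nonneg g0)) (by norm_num)

theorem poi1S : Poi1S n := by
  refine ⟨2 * 2 ^ n, by positivity, fun v hv => ?_⟩
  have cv := hv.continuous
  have h2 : volume (cube n) = 1 := by simp [cube, Real.volume_Icc_pi]
  have i : ∀ f : (Fin n → ℝ) × (Fin n → ℝ) → ℝ, Continuous f →
      Integrable f ((volume.restrict (cube n)).prod (volume.restrict (cube n))) := fun f hf => by
    rw [Measure.prod_restrict]
    exact hf.continuousOn.integrableOn_compact (cube_compact.prod cube_compact)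
  have i0 := i (fun p => |v p.2 - v p.1|) (by fun_prop)
  have i1 := i (fun p => |v p.2 - v ((1 / 2 : ℝ) • (p.1 + p.2))|) (by fun_prop)
  have i2 := i (fun p => |v p.1 - v ((1 / 2 : ℝ) • (p.2 + p.1))|) (by fun_prop)
  obtain ⟨z, -, h⟩ := exists_le_setAverage (by simp [h2]) (by simp [h2]) i0.integral_prod_left
  refine ⟨v z, h.trans ?_⟩
  have hB : ∫ z in cube n, ∫ y in cube n, |v y - v ((1 / 2 : ℝ) • (z + y))| ≤
      2 ^ n * ∫ y in cube n, ∑ i, |pd i v y| :=
    (setIntegral_mono_on i1.integral_prod_left (continuousOn_const.integrableOn_compact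
      cube_compact) cube_meas fun z hz => p1_half hv hz).trans_eq (int_cube_const _)
  have k := integral_mono i0 (i1.add i2) fun p => by
    simp only [Pi.add_apply, add_comm p.2 p.1]
    rw [abs_sub_comm (v p.1)]
    exact abs_sub_le _ _ _
  simp only [Pi.add_apply] at k
  rw [integral_add i1 i2, integral_prod _ i0, integral_prod _ i1, integral_prod_symm _ i2] at k
  rw [setAverage_eq, Measure.real, h2]
  simp only [ENNReal.toReal_one, inv_one, one_smul]
  linarith

theorem p1_ind {S : Set (Fin n → ℝ)} (hS : MeasurableSet S) :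
    ∫ y in cube n, S.indicator (fun _ => (1 : ℝ)) y = volume.real (cube n ∩ S) := by
  rw [setIntegral_indicator hS, setIntegral_const, smul_eq_mul, mul_one]

theorem p1_ball (x : Fin n → ℝ) {r : ℝ} (hr : 0 ≤ r) : ∫ y in cube n, ib x r y ≤ (2 * r) ^ n := by
  rw [ib, p1_ind measurableSet_closedBall]
  refine (measureReal_mono inter_subset_right measure_closedBall_lt_top.ne).trans_eq ?_
  rw [Measure.real, Real.volume_pi_closedBall _ hr, ENNReal.toReal_ofReal (by positivity),
    Fintype.card_fin]

theorem p1_pos {S : Set (Fin n → ℝ)} (h : volume (cube n ∩ S) ≠ 0) :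
    0 < volume.real (cube n ∩ S) :=
  ENNReal.toReal_pos h ((measure_mono inter_subset_left).trans_lt cube_compact.measure_lt_top).ne

theorem p1_low {φ : (Fin n → ℝ) → ℝ} {c : ℝ} (h : volume (cube n ∩ {y | φ y < c}) ≠ 0) :
    ∃ t : ℝ, 0 < t ∧ volume (cube n ∩ {y | φ y ≤ c - t}) ≠ 0 := by
  by_contra H
  push Not at H
  refine h (measure_mono_null (fun y hy => ?_) (measure_iUnion_null fun k : ℕ =>
    H (1 / ((k : ℝ) + 1)) (by positivity)))
  obtain ⟨k, hk⟩ := exists_nat_one_div_lt (sub_pos.2 (show φ y < c from hy.2))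
  exact mem_iUnion.2 ⟨k, hy.1, show φ y ≤ c - 1 / ((k : ℝ) + 1) by linarith⟩

theorem resS (hn : 2 ≤ n) (P : Poi1S n) : ResS n := by
  intro φ c hφ h1 h2
  obtain ⟨C, C0, hP⟩ := P
  obtain ⟨Cb, Cb0, hb⟩ := bumpS (n := n)
  obtain ⟨g, g', g1, g2, g3, g4, g5, g6, g7, g8⟩ := exists_step
  obtain ⟨t0, t00, h1⟩ := p1_low h1
  obtain ⟨L, hL⟩ := cube_compact.exists_bound_of_continuousOn (p1_cont hφ).continuousOn
  have mφ := hφ.continuous.measurable
  have mA : MeasurableSet {y | φ y ≤ c - t0} := measurableSet_le mφ measurable_const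
  have mB : MeasurableSet {y | c ≤ φ y} := measurableSet_le measurable_const mφ
  have mC : MeasurableSet {y | φ y < c} := measurableSet_lt mφ measurable_const
  have a0 := p1_pos h1
  have b0 := p1_pos h2
  set a := volume.real (cube n ∩ {y | φ y ≤ c - t0}) with ha
  set b := volume.real (cube n ∩ {y | c ≤ φ y}) with hb'
  obtain ⟨m, m0, ma, mb, m1⟩ : ∃ m : ℝ, 0 < m ∧ m ≤ a ∧ m ≤ b / 2 ∧ m ≤ 1 :=
    ⟨min a (min (b / 2) 1), by positivity, min_le_left _ _,
      (min_le_right _ _).trans (min_le_left _ _), (min_le_right _ _).trans (min_le_right _ _)⟩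
  have D0 : 0 ≤ C * (n * √Cb) := by positivity
  obtain ⟨l, l0, hl⟩ : ∃ l : ℝ, 0 < l ∧ 32 * (C * (n * √Cb) + 1) * l = m :=
    ⟨m / (32 * (C * (n * √Cb) + 1)), by positivity, mul_div_cancel₀ _ (by positivity)⟩
  have L0 : 0 < |L| + 1 := by positivity
  have l1 : 32 * l ≤ m := by nlinarith
  have l2 : (2 * (2 * l)) ^ n ≤ (2 * (2 * l)) ^ 2 :=
    pow_le_pow_of_le_one (by positivity) (by linarith) hn
  refine ⟨l, m / (4 * C * (|L| + 1)), l0, by positivity, ?_⟩
  filter_upwards [Ioc_mem_nhdsGT t00] with t ⟨ht, ht0⟩ x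
  obtain ⟨χ, x1, x2, x3, x4, x5, x6⟩ := hb x l l0
  have hH : ContDiff ℝ 1 fun y => g ((φ y - (c - t)) / t) :=
    (cd_of_hasDeriv g1 g2).comp ((hφ.sub contDiff_const).div_const t)
  have hχ : ContDiff ℝ 1 fun y => 1 - χ y := contDiff_const.sub x1
  have hf := hH.mul hχ
  obtain ⟨Y, hY⟩ := hP _ hf
  have mT : MeasurableSet ({y | c - t < φ y} \ closedBall x l) :=
    (measurableSet_lt measurable_const mφ).diff measurableSet_closedBall
  have hQ := (p1_ball x (r := 2 * l) (by positivity)).trans l2
  have iQ := (ib_lb x (2 * l)).cube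
  have low := lin3 cube_meas (f := fun y => |Y| * {y | φ y ≤ c - t0}.indicator (fun _ => 1) y)
    ((LB.ind mA).cmul _).cube (LB.of_cont (hf.continuous.sub continuous_const).abs).cube
    (LB.ind mB).cube iQ (a := 1) (b := -|1 - Y|) (c := |1 - Y|)
    (g := fun y => |g ((φ y - (c - t)) / t) * (1 - χ y) - Y|) fun y _ => by
      have q := (ib_bd x y (2 * l)).1
      have q1 := mul_nonneg (abs_nonneg (1 - Y)) q
      by_cases hA : φ y ≤ c - t0
      · rw [indicator_of_mem (show y ∈ {y | φ y ≤ c - t0} from hA), indicator_of_notMem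
          (show y ∉ {y | c ≤ φ y} from not_le.2 (show φ y < c by linarith)),
          g4 _ (div_nonpos_of_nonpos_of_nonneg (by linarith) ht.le), zero_mul, zero_sub, abs_neg]
        linarith
      rw [indicator_of_notMem (show y ∉ {y | φ y ≤ c - t0} from hA), mul_zero]
      have q2 := abs_nonneg (g ((φ y - (c - t)) / t) * (1 - χ y) - Y)
      by_cases hB : c ≤ φ y
      · rw [indicator_of_mem (show y ∈ {y | c ≤ φ y} from hB)]
        by_cases hy : y ∈ closedBall x (2 * l)
        · rw [ib_mem hy]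
          linarith
        · rw [g5 _ (by rw [le_div_iff₀ ht]; linarith), x4 y hy, sub_zero, mul_one]
          linarith
      · rw [indicator_of_notMem (show y ∉ {y | c ≤ φ y} from hB)]
        linarith
  have up := lin2 cube_meas (LB.of_cont (p1_cont hf)).cube ((LB.ind mC).cube.indicator mT) iQ
    (a := 2 * (|L| + 1) / t) (b := n * √Cb / l) fun y hy => by
      have d : HasDerivAt (fun s => g ((s - (c - t)) / t)) (g' ((φ y - (c - t)) / t) / t) (φ y) := by
        have := (g1 ((φ y - (c - t)) / t)).comp (φ y)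
          (((hasDerivAt_id (φ y)).sub_const (c - t)).div_const t)
        rwa [mul_one_div] at this
      have e : ∀ i, |pd i (fun y => g ((φ y - (c - t)) / t) * (1 - χ y)) y| ≤
          |g' ((φ y - (c - t)) / t)| * (1 - χ y) / t * |pd i φ y| + √Cb / l * ib x (2 * l) y := by
        intro i
        rw [pd_mul (cd_diff hH y) (cd_diff hχ y), pd_comp d (cd_diff hφ y),
          pd_comp ((hasDerivAt_id' (χ y)).const_sub 1) (cd_diff x1 y)]
        refine (abs_add_le _ _).trans (add_le_add (le_of_eq ?_) ?_)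
        · rw [abs_mul, abs_mul, abs_div, abs_of_pos ht, abs_of_nonneg (sub_nonneg.2 (x2 y).2)]
          ring
        rw [abs_mul, neg_one_mul, abs_neg, abs_of_nonneg (g3 _).1]
        refine (mul_le_of_le_one_left (abs_nonneg _) (g3 _).2).trans ?_
        by_cases hy : y ∈ closedBall x (2 * l)
        · rw [ib_mem hy, mul_one]
          refine abs_le_of_sq_le_sq (((sq_pd_le_gs χ y i).trans (x5 y)).trans_eq ?_) (by positivity)
          rw [div_pow, Real.sq_sqrt Cb0.le]
        · rw [ib_not hy, x6 y (.inr hy), abs_zero, mul_zero]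
      refine (Finset.sum_le_sum fun i _ => e i).trans ?_
      rw [Finset.sum_add_distrib, ← Finset.mul_sum, Finset.sum_const, Finset.card_univ,
        Fintype.card_fin, nsmul_eq_mul]
      refine add_le_add ?_ (le_of_eq (by ring))
      have z0 : 0 ≤ 2 * (|L| + 1) / t * ({y | c - t < φ y} \ closedBall x l).indicator
          ({y | φ y < c}.indicator fun _ => (1 : ℝ)) y :=
        mul_nonneg (by positivity)
          (indicator_nonneg (fun y _ => indicator_nonneg (fun _ _ => zero_le_one) y) y)
      by_cases k1 : y ∈ closedBall x l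
      · rwa [x3 y k1, sub_self, mul_zero, zero_div, zero_mul]
      rcases le_or_gt (φ y) (c - t) with k2 | k2
      · rwa [g7 _ (div_nonpos_of_nonpos_of_nonneg (by linarith) ht.le), abs_zero, zero_mul,
          zero_div, zero_mul]
      rcases le_or_gt c (φ y) with k3 | k3
      · rwa [g8 _ (by rw [le_div_iff₀ ht]; linarith), abs_zero, zero_mul, zero_div, zero_mul]
      rw [indicator_of_mem (show y ∈ {y | c - t < φ y} \ closedBall x l from ⟨k2, k1⟩),
        indicator_of_mem (show y ∈ {y | φ y < c} from k3), mul_one, div_mul_eq_mul_div]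
      refine div_le_div_of_nonneg_right (mul_le_mul ?_ ?_
        (Finset.sum_nonneg fun _ _ => abs_nonneg _) two_pos.le) ht.le
      · exact (mul_le_of_le_one_right (abs_nonneg _) (by linarith [(x2 y).1])).trans
          (abs_le_of_sq_le_sq ((g6 _).trans (by norm_num)) two_pos.le)
      · linarith [le_abs_self L, (le_abs_self _).trans (hL y hy)]
  rw [integral_const_mul, p1_ind mA, p1_ind mB, ← ha, ← hb'] at low
  rw [setIntegral_indicator mT, ← inter_sdiff_assoc] at up
  set I := ∫ y in (cube n ∩ {y | c - t < φ y}) \ closedBall x l,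
    {y | φ y < c}.indicator (fun _ => (1 : ℝ)) y
  set q := ∫ y in cube n, ib x (2 * l) y
  have s1 : 1 ≤ |Y| + |1 - Y| := by linarith [le_abs_self Y, le_abs_self (1 - Y)]
  have s2 : m ≤ |Y| * a + |1 - Y| * (b - q) := by
    have : m ≤ b - q := by nlinarith
    nlinarith [mul_le_mul_of_nonneg_left ma (abs_nonneg Y),
      mul_le_mul_of_nonneg_left this (abs_nonneg (1 - Y))]
  have s3 : C * (n * √Cb / l * q) ≤ m / 2 := by
    have := mul_le_mul_of_nonneg_left hQ (div_nonneg D0 l0.le)
    have e : C * (n * √Cb) / l * (2 * (2 * l)) ^ 2 = 16 * (C * (n * √Cb)) * l := by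
      field_simp
      ring
    rw [e] at this
    calc _ = C * (n * √Cb) / l * q := by ring
      _ ≤ _ := by nlinarith
  have s4 := mul_le_mul_of_nonneg_left up C0.le
  have s5 : m / 2 ≤ C * (2 * (|L| + 1) / t * I) := by linarith
  rw [div_mul_eq_mul_div, div_le_iff₀ (by positivity)]
  have := mul_le_mul_of_nonneg_right s5 ht.le
  rw [show C * (2 * (|L| + 1) / t * I) * t = 2 * C * (|L| + 1) * I by field_simp] at this
  linarith

end Pool.Agent.MP_478eab_an.R
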